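import Pool.Agent.Helper14.WK.StA
import Pool.Agent.Helper76.TX.StU
import Pool.Agent.Helper76.TX.StAn
import Pool.Agent.Helper28.LV.DefsA

/-!
# Project TK: twisted central values in weight `k = 2A+2`: analytic statements

`χ` is a primitive Dirichlet character modulo `D`, `f` a cusp form of weight `k = 2A+2` on `Γ₀(N)`. With
`h_u(y) = f(u/D + iy)` and `hX(y) = ∑_{u<D} χ⁻¹(u) h_u(y)` one has `hX(y) = τ ∑ χ(m) a_m e^(-2πmy)`, `τ` the Gauss sum of `χ⁻¹`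
(`tau χ` of project TX), and the Mellin transform of `hX` continues `τ Γ(s) (2π)^(-s) ∑ χ(m) a_m m^(-s)`. Models in weight 2: the modules
`M_AN1`, .., `M_AN6`, `M_LTE`, `M_LTC` of project TX (statements in Helper76/TX/StAn.lean); in weight `k` without character: Helper86/WK/M_KA5.lean.
Root numbers: models in weight 2: the modules `M_RW`, `M_RFE`, `M_RH`, `M_RT3`, `M_RC`, `M_R0`, `M_RN3` of project T3 (statements in Helper78/T3/StR.lean).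
-/

set_option autoImplicit false

open UpperHalfPlane CongruenceSubgroup
open scoped MatrixGroups

namespace Pool.Agent.Helper28.TK

open Pool.Agent.Helper14.CV (G0 Homog EqC act StN1)
open Pool.Agent.Helper14.WK
open Pool.Agent.Helper28.WK (pr cp)
open Pool.Agent.Helper76.TX (tau StAN3 Sg Jac)

/-! ### Definitions -/

/-- The root number of `f` is `w`: `Λ(s,f) = w Λ(1-s,f)` in the strip where neither Gamma factor has a
pole (compare `RootOneK`). -/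
def RootNumK {N : ℕ} [NeZero N] {k : ℤ} (w : ℤ) (hk : 0 < k) (f : CuspForm (G0 N) k) : Prop :=
  ∀ s : ℂ, -((k : ℝ) - 1) / 2 < s.re → s.re < ((k : ℝ) + 1) / 2 →
    LamK hk f s = (w : ℂ) * LamK hk f (1 - s)

/-- `L` is the `L`-function of `f ⊗ χ` in the analytic normalisation (centre `1/2`): an entire
function with `L(s) = ∑ χ(m) a_m m^(-(k-1)/2) m^(-s)` for `Re s > 3/2`. -/
def IsLTwK {N D : ℕ} {k : ℤ} (χ : DirichletCharacter ℂ D) (f : CuspForm (G0 N) k) (L : ℂ → ℂ) : Prop :=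
  Differentiable ℂ L ∧ ∀ s : ℂ, 3 / 2 < s.re →
    HasSum (fun m : ℕ => χ (m : ZMod D) * fcK f m / (m : ℂ) ^ (((k : ℂ) - 1) / 2) / (m : ℂ) ^ s) (L s)

/-- `L` is the `L`-function of the twist of `f` by the quadratic character `(·/D)`, in the analytic
normalisation (centre `1/2`): an entire function with `L(s) = ∑ (m/D) a_m m^(-(k-1)/2) m^(-s)` for `Re s > 3/2`. -/
def IsTwK {N : ℕ} {k : ℤ} (D : ℕ) (f : CuspForm (G0 N) k) (L : ℂ → ℂ) : Prop :=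
  Differentiable ℂ L ∧ ∀ s : ℂ, 3 / 2 < s.re →
    HasSum (fun m : ℕ => ((jacobiSym (m : ℤ) D : ℤ) : ℂ) * fcK f m / (m : ℂ) ^ (((k : ℂ) - 1) / 2) /
      (m : ℂ) ^ s) (L s)

/-- `h_u(y) = f(u/D + iy)`. -/
noncomputable def hUK {N : ℕ} {k : ℤ} (D : ℕ) (f : CuspForm (G0 N) k) (u : ℕ) (y : ℝ) : ℂ :=
  fzK f ((u : ℂ) / (D : ℂ) + (y : ℂ) * Complex.I)

/-- `hX(y) = ∑_{u<D} χ⁻¹(u) f(u/D + iy)`. -/
noncomputable def hXK {N D : ℕ} {k : ℤ} (χ : DirichletCharacter ℂ D) (f : CuspForm (G0 N) k) (y : ℝ) : ℂ :=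
  ∑ u ∈ Finset.range D, χ⁻¹ (u : ZMod D) * hUK D f u y

/-- The polynomial `(D X - u)^A`. -/
noncomputable def qP (A D u : ℕ) : Polynomial ℤ :=
  (Polynomial.C (D : ℤ) * Polynomial.X - Polynomial.C (u : ℤ)) ^ A

/-- The Fricke relation with root number `w`. -/
def FkRel {N : ℕ} (A : ℕ) (w : ℤ) (f : CuspForm (G0 N) (2 * A + 2)) : Prop :=
  ∀ z : ℂ, 0 < z.im → fzK f (-1 / (N * z)) =
    (w : ℂ) * ((-1) ^ (A + 1) * (N : ℂ) ^ (A + 1) * z ^ (2 * A + 2) * fzK f z)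

/-- `g(z) = (-1)^(A+1) N^(-A-1) z^(-2A-2) f(-1/(N z))`. -/
def FrK {N : ℕ} (A : ℕ) (f g : CuspForm (G0 N) (2 * A + 2)) : Prop :=
  ∀ z : ℂ, 0 < z.im → fzK g z =
    (-1) ^ (A + 1) * (((N : ℂ) ^ (A + 1) * z ^ (2 * A + 2))⁻¹ * fzK f (-1 / (N * z)))

/-! ### The twisted `L`-function -/

/-- TN1. Proof as `hAN1` (Pool/Agent/Helper61/TX/M_AN1.lean), in weight `2A+2` (the slash action has the factor `(cz+d)^(-2A-2)`, so at `0`
`‖f(u/D+iy)‖ ≤ C y^(-2A-2) exp(-c'/y)`). -/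
def StTN1 : Prop := ∀ (N : ℕ) (_ : NeZero N) (A : ℕ) (f : CuspForm (G0 N) (2 * A + 2)) (D u : ℕ), 0 < D →
  ContinuousOn (hUK D f u) (Set.Ioi 0) ∧
  (hUK D f u =O[Filter.atTop] fun y : ℝ => Real.exp (-(2 * Real.pi) * y)) ∧
  ∀ b : ℝ, hUK D f u =O[nhdsWithin 0 (Set.Ioi 0)] fun y : ℝ => y ^ (-b)

/-- TN2. The integral `∫_{i∞}^{u/D} f(z) (Dz-u)^A dz`, `z = u/D + iy`, `Dz - u = iDy`. Proof. `F(y) = prE f (qP A D u) (u/D + iy)` has (SKE) the derivative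
`f(u/D+iy) (iDy)^A i`, tends to `0` for `y → ∞` (SKA1b; `prE` is a finite combination of the `EK f i`) and to `pr I (qP A D u) u D` for `y → 0+` (`IsPotK` for the matrix `(u -1; D 0)`, whose path is `u/D + i/(Dy)`; degree
`≤ A ≤ 2A`). `h_u(y) y^A` is integrable on `(0, ∞)` (TN1). Models: Pool/Agent/Helper7/TX/M_AN2.lean and Pool/Agent/Helper86/WK/M_KA5.lean. -/
def StTN2 : Prop := SKE → SKA1b → StTN1 → ∀ (N : ℕ) (_ : NeZero N) (A : ℕ) (f : CuspForm (G0 N) (2 * A + 2))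
  (I : ℤ → ℤ → ℕ → ℂ) (D u : ℕ), 0 < D → IsPotK A f I →
  pr I (qP A D u) u D =
    -(Complex.I ^ (A + 1) * (D : ℂ) ^ A * ∫ y in Set.Ioi (0 : ℝ), (y : ℂ) ^ A * hUK D f u y)

/-- TN4. The expansion of `hXK`. Proof as `hAN4` (Pool/Agent/Helper13/TX/M_AN4.lean) with SKA1. -/
def StTN4 : Prop := SKA1 → StAN3 → ∀ (N : ℕ) (_ : NeZero N) (k : ℤ) (f : CuspForm (G0 N) k) (D : ℕ)
  (_ : NeZero D) (χ : DirichletCharacter ℂ D), χ.IsPrimitive → ∀ y : ℝ, 0 < y →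
  HasSum (fun m : ℕ => tau χ * χ (m : ZMod D) * fcK f m * Real.exp (-(2 * Real.pi * m) * y)) (hXK χ f y)

/-- The content of TN5. -/
def TN5 : Prop := ∀ (N : ℕ) (_ : NeZero N) (A : ℕ) (f : CuspForm (G0 N) (2 * A + 2)) (D : ℕ)
  (_ : NeZero D) (χ : DirichletCharacter ℂ D), χ.IsPrimitive → ∀ s : ℂ, (A : ℝ) + 2 < s.re →
  HasSum (fun m : ℕ => Complex.Gamma s * (tau χ * χ (m : ZMod D) * fcK f m) /
    ((2 * Real.pi * m : ℝ) : ℂ) ^ s) (mellin (hXK χ f) s)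

/-- TN5. The Mellin transform of `hXK`. Proof as `hAN5` (Pool/Agent/Helper55/TX/M_AN5.lean); `fcK f m = O(m^(A+1))` (`CuspFormClass.qExpansion_isBigO`, exponent `k/2`,
as in the proofs of SKA1 and of `hKLs`, Pool/Agent/Helper28/WK/M_KLs.lean), so the series of norms converges for `Re s > A + 2`. -/
def StTN5 : Prop := SKA1 → StAN3 → StTN4 → TN5

/-- The content of TN6. -/
def TN6 : Prop := ∀ (N : ℕ) (_ : NeZero N) (A : ℕ) (f : CuspForm (G0 N) (2 * A + 2)) (D : ℕ)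
  (_ : NeZero D) (χ : DirichletCharacter ℂ D),
  Differentiable ℂ (mellin (hXK χ f)) ∧ ∀ I : ℤ → ℤ → ℕ → ℂ, IsPotK A f I →
  -(Complex.I ^ (A + 1) * (D : ℂ) ^ A * mellin (hXK χ f) (A + 1)) =
    ∑ u ∈ Finset.range D, χ⁻¹ (u : ZMod D) * pr I (qP A D u) u D

/-- TN6. The Mellin transform of `hXK` is entire, and its value at `A + 1` (`mellin F (A+1) = ∫ y^A F(y) dy`). Proof as `hAN6` (Pool/Agent/Helper42/TX/M_AN6.lean). -/
def StTN6 : Prop := SKE → SKA1b → StTN1 → StTN2 → TN6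

/-- The content of TLE. -/
def TLE : Prop := ∀ (N : ℕ) (_ : NeZero N) (A : ℕ) (f : CuspForm (G0 N) (2 * A + 2)) (D : ℕ)
  (_ : NeZero D) (χ : DirichletCharacter ℂ D), χ.IsPrimitive → ∃ L : ℂ → ℂ, IsLTwK χ f L

/-- TLE. Existence of the entire continuation. Proof as `hLTE` (Pool/Agent/Helper80/TX/M_LTE.lean):
`L(s) = mellin hXK (s+A+1/2) (2π)^(s+A+1/2) (1/Γ(s+A+1/2)) / tau χ`; `(k-1)/2 = A + 1/2`. -/
def StTLE : Prop := SKA1 → TN5 → TN6 → StAN3 → TLE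

/-- The content of TLC. -/
def TLC : Prop := ∀ (N : ℕ) (_ : NeZero N) (A : ℕ) (f : CuspForm (G0 N) (2 * A + 2)) (D : ℕ)
  (_ : NeZero D) (χ : DirichletCharacter ℂ D) (L : ℂ → ℂ) (I : ℤ → ℤ → ℕ → ℂ), χ.IsPrimitive →
  IsLTwK χ f L → IsPotK A f I → L (1 / 2) = 0 →
    ∑ u ∈ Finset.range D, χ⁻¹ (u : ZMod D) * pr I (qP A D u) u D = 0

/-- TLC. The central value. Proof as `hLTC` (Pool/Agent/Helper92/TX/M_LTC.lean): `L(s) tau χ = mellin hXK (s+A+1/2) (2π)^(s+A+1/2) (1/Γ(s+A+1/2))` for all `s`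
(identity theorem); at `s = 1/2`: `s + A + 1/2 = A + 1`, `1/Γ(A+1) ≠ 0`, so `mellin hXK (A+1) = 0`; TN6. -/
def StTLC : Prop := TN5 → TN6 → StAN3 → TLC

/-! ### Root numbers -/

/-- KRW. The Fricke transform of a cusp form of weight `2A+2` on `Γ₀(N)` is a cusp form on `Γ₀(N)`. Proof as `RW` (Pool/Agent/Helper25/T3/M_RW.lean). -/
def KRW : Prop := ∀ (N : ℕ) (_ : NeZero N) (A : ℕ) (f : CuspForm (G0 N) (2 * A + 2)),
  ∃ g : CuspForm (G0 N) (2 * A + 2), FrK A f g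

/-- KRFE. The functional equation. Proof as `RFE` (Pool/Agent/Helper6/T3/M_RFE.lean), in weight `k` the lemmas of Pool/Agent/Helper43/WK/M_KA8.lean: `g(it) = N^(-A-1) t^(-2A-2) f(i/(Nt))`
(`i^(-2A-2) = (-1)^(A+1)`), so with `σ = s + A + 1/2`: `mellin (f(it)) σ = N^(1/2-s) mellin (g(it)) (2A+2-σ)` and `2A + 2 - σ = (1 - s) + A + 1/2`. -/
def KRFE : Prop := ∀ (N : ℕ) (_ : NeZero N) (A : ℕ) (hk : 0 < (2 * A + 2 : ℤ))
  (f g : CuspForm (G0 N) (2 * A + 2)), FrK A f g →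
  ∀ s : ℂ, -(((2 * A + 2 : ℤ) : ℝ) - 1) / 2 < s.re → s.re < (((2 * A + 2 : ℤ) : ℝ) + 1) / 2 →
    LamK hk f s = LamK hk g (1 - s)

/-- The content of KRH. -/
def KRHc : Prop := ∀ (N : ℕ) (_ : NeZero N) (A : ℕ) (f g : CuspForm (G0 N) (2 * A + 2)) (l : ℕ) (lam : ℂ),
  l.Prime → ¬ l ∣ N → FrK A f g → HeckeEigK f l lam → HeckeEigK g l lam

/-- KRH. The Fricke transform commutes with `T_l`, `l` a prime not dividing `N`. Proof as SKN3 (Pool/Agent/Helper7/WK/M_KN3.lean), without primitives: `(f|δ)(z) = l^(k-1) (cz+d)^(-k) f(δz)` for `δ` of determinant `l`,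
`T_l f = ∑_P f|δ_P` for every family as in `StN1` (SKH1, SKMod). For `W = (0 -1; N 0)` the matrices `W δ W⁻¹` of the standard family are `(l 0; -Nj 1)`, `(1 0; 0 l)`, integral of determinant `l` with lower left entry
divisible by `N`, in pairwise different classes; so `∑_P f|(W δ_P) = ∑_P f|(W δ_P W⁻¹)|W = (T_l f)|W = lam f|W`, and `g` is a constant multiple of `f|W`. Compare Pool/Agent/Helper7/T3/M_RH.lean (weight 2). -/
def StKRH : Prop := SKH1 → SKMod → StN1 → KRHc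

/-- KRT. The coefficients at the multiples of `p`. Proof as `RT3` (Pool/Agent/Helper9/T3/M_RT3.lean): the left side is `p ∑_{p ∣ m} a_m q^m`. -/
def StKRT : Prop := SKA1 → ∀ (N : ℕ) (_ : NeZero N) (k : ℤ) (f : CuspForm (G0 N) k) (p : ℕ), 0 < p →
  (∀ z : ℂ, 0 < z.im → ∑ i ∈ Finset.range p, fzK f (z + i / p) = 0) → ∀ m : ℕ, fcK f (p * m) = 0

/-- KRC. Equal eigenvalues give proportional forms. Proof as `RC` (Pool/Agent/Helper60/T3/M_RC.lean). -/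
def StKRC : Prop := SKA1 → ∀ (N : ℕ) (_ : NeZero N) (k : ℤ) (f g : CuspForm (G0 N) k) (p : ℕ), p.Prime → fcK f 1 = 1 →
  (∀ l : ℕ, l.Prime → l ≠ p → HeckeEigK f l (fcK f l)) →
  (∀ l : ℕ, l.Prime → l ≠ p → HeckeEigK g l (fcK f l)) →
  (∀ m : ℕ, fcK f (p * m) = 0) → (∀ m : ℕ, fcK g (p * m) = 0) → ∀ m : ℕ, fcK g m = fcK g 1 * fcK f m

/-- KR0. If the traces of the Fricke transform vanish. Proof: for `f` of level `p^n`, `n ≥ 2`, the trace of `f` to level `p^(n-1)` (SKN2) has the eigenvalues `t l` (SKN3), so it is `0`: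
`∑_i (iMz+1)^(-2A-2) f(z/(iMz+1)) = 0`, `M = p^(n-1)`. Insert `-1/(p^n z)` and use `f(-1/(Nz)) = (-1)^(A+1) N^(A+1) z^(2A+2) g(z)` (`FrK`); `-1/(Nz)` with `z` replaced by `z - i/p`. As in the proof of SKN4 (b)
(Pool/Agent/Helper21/WK/M_KN4.lean) with two forms `f`, `g`; model in weight 2: Pool/Agent/Helper78/T3/M_R0.lean. -/
def StKR0 : Prop := SKMod → SKN2 → SKN3 → ∀ (p n : ℕ) (_ : NeZero (p ^ n)) (A : ℕ)
  (f g : CuspForm (G0 (p ^ n)) (2 * A + 2)) (t : ℕ → ℂ), p.Prime → 2 ≤ n → FrK A f g →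
  (∀ l : ℕ, l.Prime → l ≠ p → HeckeEigK f l (t l)) →
  (∀ h : CuspForm (G0 (p ^ (n - 1))) (2 * A + 2), (∀ l : ℕ, l.Prime → l ≠ p → HeckeEigK h l (t l)) → h = 0) →
  ∀ z : ℂ, 0 < z.im → ∑ i ∈ Finset.range p, fzK g (z + i / p) = 0

/-- The content of KRN: a newform of level `p^n`, `n ≥ 2`, has a root number `w`, and the relations of SKN4 and the Fricke relation hold. -/
def KRN : Prop := ∀ (p n : ℕ) (_ : NeZero (p ^ n)) (A : ℕ) (hk : 0 < (2 * A + 2 : ℤ))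
  (f : CuspForm (G0 (p ^ n)) (2 * A + 2)), p.Prime → 2 ≤ n → IsNewformK p n f →
  ∃ w : ℤ, Sg w ∧ RootNumK w hk f ∧ FkRel A w f ∧
    (∀ z : ℂ, 0 < z.im → ∑ i ∈ Finset.range p, fzK f (z + i / p) = 0) ∧
    (∀ z : ℂ, 0 < z.im → ∑ i ∈ Finset.range p, ((i * (p : ℂ) ^ (n - 1) * z + 1) ^ (2 * A + 2))⁻¹ *
      fzK f (z / (i * (p : ℂ) ^ (n - 1) * z + 1)) = 0)

/-- KRN (helper28). -/
def StKRN : Prop := SKA1 → SKN4 → KRW → KRFE → KRHc → StKRT → StKRC → StKR0 → SKMod → SKN2 → SKN3 → KRN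

/-- The content of KRN0: level one, the root number is `(-1)^(A+1)`. -/
def KRN0 : Prop := ∀ (N : ℕ) (_ : NeZero N) (A : ℕ) (hk : 0 < (2 * A + 2 : ℤ))
  (f : CuspForm (G0 N) (2 * A + 2)), N = 1 → RootNumK ((-1) ^ (A + 1)) hk f ∧ FkRel A ((-1) ^ (A + 1)) f

/-- KRN0 (from KRFE, SKMod). Proof. For `N = 1`: SKMod for `(0 -1; 1 0)`: `f(-1/z) = z^(2A+2) f(z)`, which is `FkRel` with `w = (-1)^(A+1)` (`w (-1)^(A+1) = 1`). `g = (-1)^(A+1) f` (a scalar multiple of a cusp form: `FrK A f g`), KRFE and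
`LamK` of a scalar multiple (`ModularForm.L` is linear: from the Mellin transform or `L_smul`; if there is no such lemma use the formula of `lam_eq` in Pool/Agent/Helper43/WK/M_KA8.lean). -/
def StKRN0 : Prop := KRFE → SKMod → KRN0

/-! ### Potentials -/

/-- KP4W. Fricke relation for the central potential, root number `w`. Proof as SKP4 (Pool/Agent/Helper10/WK/M_KP4.lean): SKP2 for `(0 -1; N 0)`, `κ = w (-1)^(A+1) N^(-A-1)` up to the form of `FkRel`, `j = A`. -/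
def StKP4W : Prop := SKP2 → ∀ (N : ℕ) (_ : NeZero N) (A : ℕ) (w : ℤ) (f : CuspForm (G0 N) (2 * A + 2))
  (I : ℤ → ℤ → ℕ → ℂ), Sg w → IsPotK A f I → FkRel A w f →
  EqC (act 0 (-1) N 0 (cp I A)) (-(w • cp I A))

/-- KINS. SKIN with a sign `s`. Proof as SKIN (Pool/Agent/Helper67/WK/M_KIN.lean): `H(-x) = -s (-1)^A H(x)`. -/
def StKINS : Prop := SKB1 → SKB2 → SKB3 → SKP1 → ∀ (N : ℕ) (_ : NeZero N) (A : ℕ) (f : CuspForm (G0 N) (2 * A + 2))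
  (I : ℤ → ℤ → ℕ → ℂ) (s : ℤ), Sg s → 1 ≤ A → IsPotK A f I →
  (∀ j : ℕ, j ≤ 2 * A → ∀ p q : ℤ, (p ≠ 0 ∨ q ≠ 0) → I p q j + (s : ℂ) * ((-1) ^ (A + j) * I (-p) q j) = 0) →
  ∀ m : ℕ, 1 ≤ m → fcK f m = 0

end Pool.Agent.Helper28.TK
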