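import Pool.Agent.Helper28.TK.Ana
import Pool.Agent.Helper76.TG.StG

/-!
# Any prime `p`: Theorem A for the twisted path implies nonvanishing in all even weights
-/

set_option autoImplicit false

open UpperHalfPlane CongruenceSubgroup
open scoped MatrixGroups

namespace Pool.Agent.Helper28.TK

open Pool.Agent.Helper14.CV (G0 EqC)
open Pool.Agent.Helper14.WK
open Pool.Agent.Helper28.LV (IsNewformA)
open Pool.Agent.Helper28.WK (cp)
open Pool.Agent.Helper76.TG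
open Pool.Agent.Helper76.TX (Sg Jac)

/-- The conclusion of `cen2Of` of project T3K. -/
def Cen2 : Prop := ∀ (p : ℕ), p.Prime → ∀ D : ℕ, Nat.Coprime p D → TAt p D →
  ∀ (a ν : ℕ) (Φ : ℤ → ℤ → ℕ → ℂ), WSymT p a ν D Φ → ∀ i : ℕ, i ≤ 2 * a → EqC (cp Φ i) 0

/-- The conclusion of `cen0Of` of project T3K. -/
def Cen0 : Prop := ∀ (p : ℕ), p.Prime → ∀ D : ℕ, Nat.Coprime p D → TAt p D →
  ∀ (a : ℕ) (Φ : ℤ → ℤ → ℕ → ℂ), WSNT p a 0 D Φ → ∀ i : ℕ, i ≤ 2 * a → EqC (cp Φ i) 0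

/-- The statement for the prime `p` and the level `p^n`: every newform has a root number `w`, its quadratic twists
have entire `L`-functions, and the central value of the twist by `(·/D)` is not zero if the root number of the twist is
`+1` and Theorem A for the twisted path holds. -/
def GenP (p n : ℕ) : Prop := ∀ (A : ℕ) (_ : NeZero (p ^ n)) (hk : 0 < (2 * A + 2 : ℤ))
  (f : CuspForm (G0 (p ^ n)) (2 * A + 2)), 1 ≤ A → IsNewformA p n f →
  ∃ w : ℤ, Sg w ∧ RootNumK w hk f ∧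
    (∀ D : ℕ, Odd D → Squarefree D → ∃ L : ℂ → ℂ, IsTwK D f L) ∧
    ∀ D : ℕ, Odd D → Squarefree D → Nat.Coprime p D → TAt p D →
      w = jacobiSym (-1) D * jacobiSym p D ^ n →
      ∀ L : ℂ → ℂ, IsTwK D f L → L (1 / 2) ≠ 0

/-- Levels `p^n`, `n ≥ 2`. -/
theorem genP2 (cen2 : Cen2) (hTr : StTrT) (hTr2 : StTr2T) (hAll : StAllT)
    (p : ℕ) (hp : p.Prime) (n : ℕ) (hn : 2 ≤ n) : GenP p n := by
  intro A hne hk f hA hf
  obtain ⟨a4, kmod, p1, p2, h3, a8, n4, p5, p6, p4, a5, kin⟩ := Pool.Agent.Helper28.LV.ana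
  have a1 := Pool.Agent.Helper63.WK.hKA1
  have a1b := Pool.Agent.Helper92.WK.hKA1b a1
  have ke := Pool.Agent.Helper6.WK.hKE a1
  have b1 := Pool.Agent.Helper82.WK.hKB1
  have b2 := Pool.Agent.Helper81.WK.hKB2 a1 a1b ke b1
  have b3 := Pool.Agent.Helper90.WK.hKB3 a1 b1
  obtain ⟨ν, rfl⟩ : ∃ ν, n = ν + 2 := ⟨n - 2, by omega⟩
  have hK := hf.toK (by omega)
  obtain ⟨w, hw, hR, hFk, hb, ha⟩ := krn p (ν + 2) hne A hk f hp hn hK
  refine ⟨w, hw, hR, fun D hD hsq => isTwK_exists jac tle hne A D hD hsq f, ?_⟩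
  intro D hD hsq hpD hTA hwe L hL
  exact hFinT a4 kmod p1 p2 h3 p5 p6 Pool.Agent.Helper33.TK.hKP4W b1 b2 b3
    Pool.Agent.Helper1.TK.hKINS jac tlc hTr hTr2 hAll p A ν D hp hA hD hsq hpD
    (fun Φ hΦ => cen2 p hp D hpD hTA A ν Φ hΦ A (by omega)) hne f hf.normalised hf.hecke w hw hwe
    hFk hb ha L hL

/-- Level one. -/
theorem genP0 (cen0 : Cen0) (hTr : StLTrT) (hAll : StLAllT)
    (p : ℕ) (hp : p.Prime) : GenP p 0 := by
  intro A hne hk f hA hf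
  obtain ⟨a4, kmod, p1, p2, h3, a8, n4, p5, p6, p4, a5, kin⟩ := Pool.Agent.Helper28.LV.ana
  have a1 := Pool.Agent.Helper63.WK.hKA1
  have a1b := Pool.Agent.Helper92.WK.hKA1b a1
  have ke := Pool.Agent.Helper6.WK.hKE a1
  have b1 := Pool.Agent.Helper82.WK.hKB1
  have b2 := Pool.Agent.Helper81.WK.hKB2 a1 a1b ke b1
  have b3 := Pool.Agent.Helper90.WK.hKB3 a1 b1
  obtain ⟨hR, hFk⟩ := krn0 (p ^ 0) hne A hk f (pow_zero p)
  refine ⟨(-1) ^ (A + 1), neg_one_pow_eq_or ℤ (A + 1), hR,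
    fun D hD hsq => isTwK_exists jac tle hne A D hD hsq f, ?_⟩
  intro D hD hsq hpD hTA hwe L hL
  exact hFinNT a4 kmod p1 p2 h3 Pool.Agent.Helper33.TK.hKP4W b1 b2 b3
    Pool.Agent.Helper1.TK.hKINS jac tlc hTr hAll p A 0 D hp hA hD hsq hpD
    (fun Φ hΦ => cen0 p hp D hpD hTA A Φ hΦ A (by omega)) hne f hf.normalised hf.hecke _
    (neg_one_pow_eq_or ℤ (A + 1)) hwe hFk L hL

end Pool.Agent.Helper28.TK
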