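import Pool.Agent.Helper28.TK.StK

/-!
# Every newform of level `p^n`, `n ≥ 2`, of any even weight has a root number
-/

set_option autoImplicit false

open UpperHalfPlane CongruenceSubgroup
open scoped MatrixGroups

namespace Pool.Agent.Helper28.TK

open Pool.Agent.Helper14.CV (G0)
open Pool.Agent.Helper14.WK
open Pool.Agent.Helper76.TX (Sg)

private theorem im_W (r : ℝ) (hr : 0 < r) (z : ℂ) (hz : 0 < z.im) :
    0 < (-1 / ((r : ℂ) * z)).im := by
  have hw : 0 < ((r : ℂ) * z).im := by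
    rw [Complex.im_ofReal_mul r z]
    exact mul_pos hr hz
  have hw0 : (r : ℂ) * z ≠ 0 := by
    intro h0
    rw [h0, Complex.zero_im] at hw
    exact lt_irrefl _ hw
  have e : -1 / ((r : ℂ) * z) = -((r : ℂ) * z)⁻¹ := by ring
  rw [e, Complex.neg_im, Complex.inv_im]
  have hn : 0 < Complex.normSq ((r : ℂ) * z) := Complex.normSq_pos.2 hw0
  have : 0 < ((r : ℂ) * z).im / Complex.normSq ((r : ℂ) * z) := div_pos hw hn
  have e2 : -(-((r : ℂ) * z).im / Complex.normSq ((r : ℂ) * z)) =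
      ((r : ℂ) * z).im / Complex.normSq ((r : ℂ) * z) := by ring
  rw [e2]
  exact this

private theorem ne_of_im {z : ℂ} (hz : 0 < z.im) : z ≠ 0 := by
  intro h0
  rw [h0, Complex.zero_im] at hz
  exact lt_irrefl _ hz

private theorem im_WN {N : ℕ} (hN : N ≠ 0) {z : ℂ} (hz : 0 < z.im) :
    0 < (-1 / ((N : ℂ) * z)).im := by
  have h := im_W (N : ℝ) (by exact_mod_cast Nat.pos_of_ne_zero hN) z hz
  exact_mod_cast h

/-- The Fricke transform is an involution. -/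
theorem FrK.symm {N : ℕ} (hN : N ≠ 0) {A : ℕ} {f g : CuspForm (G0 N) (2 * A + 2)}
    (h : FrK A f g) : FrK A g f := by
  intro z hz
  have h1 := h (-1 / (N * z)) (im_WN hN hz)
  have hNc : (N : ℂ) ≠ 0 := by exact_mod_cast hN
  have hz0 : z ≠ 0 := ne_of_im hz
  have e : -1 / ((N : ℂ) * (-1 / (N * z))) = z := by
    field_simp
  rw [e] at h1
  rw [h1]
  have hs : ((-1 : ℂ) ^ (A + 1)) * (-1) ^ (A + 1) = 1 := by
    rw [← mul_pow]; simp
  have e2 : (-1 / ((N : ℂ) * z)) ^ (2 * A + 2) = (((N : ℂ) ^ (A + 1)) ^ 2 * z ^ (2 * A + 2))⁻¹ := by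
    rw [div_pow, mul_pow, show 2 * A + 2 = 2 * (A + 1) by ring, pow_mul (-1 : ℂ)]
    rw [show ((-1 : ℂ)) ^ 2 = 1 by norm_num, one_pow, one_div, ← pow_mul (N : ℂ) (A + 1) 2,
      mul_comm (A + 1) 2]
  rw [e2]
  have hNA : (N : ℂ) ^ (A + 1) ≠ 0 := pow_ne_zero _ hNc
  have hzA : z ^ (2 * A + 2) ≠ 0 := pow_ne_zero _ hz0
  have e3 : ((N : ℂ) ^ (A + 1) * z ^ (2 * A + 2))⁻¹ *
      ((N : ℂ) ^ (A + 1) * (((N : ℂ) ^ (A + 1)) ^ 2 * z ^ (2 * A + 2))⁻¹)⁻¹ = 1 := by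
    field_simp
  calc fzK f z = (((-1 : ℂ) ^ (A + 1)) * (-1) ^ (A + 1)) *
        (((N : ℂ) ^ (A + 1) * z ^ (2 * A + 2))⁻¹ *
      ((N : ℂ) ^ (A + 1) * (((N : ℂ) ^ (A + 1)) ^ 2 * z ^ (2 * A + 2))⁻¹)⁻¹) * fzK f z := by
        rw [hs, e3, one_mul, one_mul]
    _ = _ := by ring

private theorem fz_smul (h1 : SKA1) {N : ℕ} (hN : NeZero N) {k : ℤ} {f g : CuspForm (G0 N) k}
    {c : ℂ} (h : ∀ m : ℕ, fcK g m = c * fcK f m) (z : ℂ) (hz : 0 < z.im) :
    fzK g z = c * fzK f z := by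
  have hf := (h1 N hN k f z hz).2.2.1
  have hg := (h1 N hN k g z hz).2.2.1
  have hf' := hf.mul_left c
  refine hg.unique ?_
  have e : (fun m : ℕ => fcK g m * Complex.exp (2 * Real.pi * Complex.I * m * z)) =
      fun m : ℕ => c * (fcK f m * Complex.exp (2 * Real.pi * Complex.I * m * z)) := by
    funext m
    rw [h m, mul_assoc]
  rw [e]
  exact hf'

private noncomputable def ph {N : ℕ} {k : ℤ} (f : CuspForm (G0 N) k) (t : ℝ) : ℂ :=
  fzK f (Complex.I * t)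

private lemma lan_eq {N : ℕ} [NeZero N] {k : ℤ} (hk : 0 < k) (f : CuspForm (G0 N) k) (s : ℂ) :
    LanK hk f s = mellin (ph f) (s + ((k : ℂ) - 1) / 2) *
      (2 / Complex.Gammaℂ (s + ((k : ℂ) - 1) / 2)) := by
  unfold LanK ModularForm.L
  rw [CuspForm.Λ_eq_mellin]
  rfl

theorem lanK_neg {N : ℕ} [NeZero N] {k : ℤ} (hk : 0 < k) (f : CuspForm (G0 N) k) (s : ℂ) :
    LanK hk (-f) s = -LanK hk f s := by
  rw [lan_eq, lan_eq]
  have e : ph (-f) = fun t : ℝ => (-1 : ℂ) • ph f t := by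
    funext t
    rw [neg_one_smul]
    rfl
  have e2 : mellin (ph (-f)) (s + ((k : ℂ) - 1) / 2) =
      (-1 : ℂ) • mellin (ph f) (s + ((k : ℂ) - 1) / 2) := by
    rw [e]
    exact mellin_const_smul _ _ _
  rw [e2, neg_one_smul]
  ring

theorem lamK_neg {N : ℕ} [NeZero N] {k : ℤ} (hk : 0 < k) (f : CuspForm (G0 N) k) (s : ℂ) :
    LamK hk (-f) s = -LamK hk f s := by
  unfold LamK
  rw [lanK_neg]
  ring

private lemma fc_zero {N : ℕ} {k : ℤ} (m : ℕ) : fcK (0 : CuspForm (G0 N) k) m = 0 := by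
  unfold fcK
  rw [FunLike.coe_zero]
  simp [UpperHalfPlane.qExpansion_zero]

theorem hKRN : StKRN := by
  intro ka1 n4 hRW hRFE hRH hRT hRC hR0 kmod n2 n3 p n hne A hk f hp hn hf
  have hN0 : p ^ n ≠ 0 := hne.out
  obtain ⟨g, hg⟩ := hRW (p ^ n) hne A f
  have hgf : FrK A g f := hg.symm hN0
  have heg : ∀ l : ℕ, l.Prime → l ≠ p → HeckeEigK g l (fcK f l) := by
    intro l hl hlp
    refine hRH (p ^ n) hne A f g l (fcK f l) hl ?_ hg (hf.hecke l hl hlp)
    intro hd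
    exact hlp ((Nat.prime_dvd_prime_iff_eq hl hp).1 (hl.dvd_of_dvd_pow hd))
  have r1 := hR0 kmod n2 n3 p n hne A f g (fun l => fcK f l) hp hn hg hf.hecke hf.new
  have r2 := hR0 kmod n2 n3 p n hne A g f (fun l => fcK f l) hp hn hgf heg hf.new
  have c1 := hRT ka1 (p ^ n) hne _ g p hp.pos r1
  have c2 := hRT ka1 (p ^ n) hne _ f p hp.pos r2
  have key := hRC ka1 (p ^ n) hne _ f g p hp hf.normalised hf.hecke heg c2 c1
  obtain ⟨c, hc⟩ : ∃ c : ℂ, c = fcK g 1 := ⟨_, rfl⟩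
  rw [← hc] at key
  have e1 := fz_smul ka1 hne key
  -- the square of the constant
  have hsq : c * c = 1 := by
    have e2 : ∀ z : ℂ, 0 < z.im → fzK f z = c * c * fzK f z := by
      intro z hz
      have a1 := hgf z hz
      have a2 := e1 (-1 / (((p ^ n : ℕ) : ℂ) * z)) (im_WN hN0 hz)
      have a3 := hg z hz
      rw [e1 z hz] at a3
      rw [a2] at a1
      calc fzK f z = c * ((-1) ^ (A + 1) * ((((p ^ n : ℕ) : ℂ) ^ (A + 1) * z ^ (2 * A + 2))⁻¹ *
          fzK f (-1 / (((p ^ n : ℕ) : ℂ) * z)))) := by rw [a1]; ring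
        _ = c * c * fzK f z := by rw [← a3]; ring
    by_contra hcc
    have hz : ∀ z : ℂ, 0 < z.im → fzK f z = 0 := by
      intro z hz
      have h := e2 z hz
      have h' : (1 - c * c) * fzK f z = 0 := by linear_combination h
      rcases mul_eq_zero.1 h' with h'' | h''
      · exact absurd (sub_eq_zero.1 h'').symm hcc
      · exact h''
    have hf0 : f = 0 := by
      refine DFunLike.ext _ _ fun τ => ?_
      have h := hz (τ : ℂ) τ.im_pos
      unfold fzK at h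
      rw [UpperHalfPlane.ofComplex_apply] at h
      exact h
    have h := hf.normalised
    rw [hf0, fc_zero] at h
    exact zero_ne_one h
  have hcs : c = 1 ∨ c = -1 := by
    have h : (c - 1) * (c + 1) = 0 := by linear_combination hsq
    rcases mul_eq_zero.1 h with h | h
    · exact Or.inl (sub_eq_zero.1 h)
    · exact Or.inr (eq_neg_of_add_eq_zero_left h)
  have hgc : g = c • f := by
    refine DFunLike.ext _ _ fun τ => ?_
    have h := e1 (τ : ℂ) τ.im_pos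
    unfold fzK at h
    rw [UpperHalfPlane.ofComplex_apply] at h
    exact h
  obtain ⟨w, hw, hwc⟩ : ∃ w : ℤ, Sg w ∧ (w : ℂ) = c := by
    rcases hcs with h | h
    · exact ⟨1, Or.inl rfl, by rw [h]; simp⟩
    · exact ⟨-1, Or.inr rfl, by rw [h]; simp⟩
  have hfe := hRFE (p ^ n) hne A hk f g hg
  refine ⟨w, hw, ?_, ?_, r2, ?_⟩
  · intro s hs1 hs2
    rcases hcs with h | h
    · rw [hfe s hs1 hs2, hgc, hwc, h, one_smul, one_mul]
    · rw [hfe s hs1 hs2, hgc, hwc, h, neg_one_smul, lamK_neg, neg_one_mul]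
  · intro z hz
    have a3 := hg z hz
    rw [e1 z hz] at a3
    have hNc : ((p ^ n : ℕ) : ℂ) ≠ 0 := by exact_mod_cast hN0
    have hz0 : z ≠ 0 := ne_of_im hz
    have hNA : ((p ^ n : ℕ) : ℂ) ^ (A + 1) ≠ 0 := pow_ne_zero _ hNc
    have hzA : z ^ (2 * A + 2) ≠ 0 := pow_ne_zero _ hz0
    have hs : ((-1 : ℂ) ^ (A + 1)) * (-1) ^ (A + 1) = 1 := by
      rw [← mul_pow]; simp
    rw [hwc]
    calc fzK f (-1 / (((p ^ n : ℕ) : ℂ) * z)) =
        (((-1 : ℂ) ^ (A + 1)) * (-1) ^ (A + 1)) * (((p ^ n : ℕ) : ℂ) ^ (A + 1) * z ^ (2 * A + 2)) *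
          ((((p ^ n : ℕ) : ℂ) ^ (A + 1) * z ^ (2 * A + 2))⁻¹ *
          fzK f (-1 / (((p ^ n : ℕ) : ℂ) * z))) := by
          rw [hs]
          field_simp
      _ = (-1 : ℂ) ^ (A + 1) * (((p ^ n : ℕ) : ℂ) ^ (A + 1) * z ^ (2 * A + 2)) *
          (c * fzK f z) := by rw [a3]; ring
      _ = _ := by ring
  · exact (n4 p n hne A hk f hp hn hf).1

end Pool.Agent.Helper28.TK
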