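import Pool.Agent.Helper28.TK.StK
import Pool.Agent.Helper76.TG.StG

/-!
# The Eichler potentials of a newform with root number `w`, and the final step
-/

set_option autoImplicit false

open Pool.Agent.Helper14.CV (G0 Homog EqC act)
open Pool.Agent.Helper14.WK Pool.Agent.Helper28.WK
open Pool.Agent.Helper76.TG
open Pool.Agent.Helper76.TX (Sg Jac)
open scoped MatrixGroups

namespace Pool.Agent.Helper28.TK

/-- Level `p^(ν+2)`, the coordinate `z`. -/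
theorem hBrgT (hA4 : SKA4) (hMod : SKMod) (hP1 : SKP1) (hP2 : SKP2) (hH3 : SKH3)
    (hP5 : SKP5) (hP6 : SKP6) (hP4 : StKP4W)
    (p A ν : ℕ) (w : ℤ) (hp : p.Prime) (hw : Sg w) (hne : NeZero (p ^ (ν + 2)))
    (f : CuspForm (G0 (p ^ (ν + 2))) (2 * A + 2))
    (hf : ∀ l : ℕ, l.Prime → l ≠ p → HeckeEigK f l (fcK f l)) (hW : FkRel A w f)
    (hb : ∀ z : ℂ, 0 < z.im → ∑ i ∈ Finset.range p, fzK f (z + i / p) = 0)
    (ha : ∀ z : ℂ, 0 < z.im → ∑ i ∈ Finset.range p,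
      ((i * (p : ℂ) ^ (ν + 2 - 1) * z + 1) ^ (2 * A + 2))⁻¹ *
      fzK f (z / (i * (p : ℂ) ^ (ν + 2 - 1) * z + 1)) = 0) :
    ∃ I : ℤ → ℤ → ℕ → ℂ, IsPotK A f I ∧ IDataT p A ν w I := by
  obtain ⟨I, hI, hinf⟩ := hA4 (p ^ (ν + 2)) hne A f
  refine ⟨I, hI, ?_⟩
  constructor
  · exact hP1 _ hne A f I hI
  · exact hinf
  · intro α β γ δ hdet hγ i hi
    have hM := hMod (p ^ (ν + 2)) hne A f α β γ δ hdet (by push_cast; exact hγ)
    obtain ⟨C, hC⟩ := hP2 (p ^ (ν + 2)) hne A f I α β γ δ 1 hI (by rw [hdet]; norm_num)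
      (fun z hz => by rw [hM z hz, one_mul]) i hi
    refine ⟨C, fun x y hxy => ?_⟩
    have h1 := hC x y hxy
    rw [hdet] at h1
    simp only [Int.cast_one, one_mul, mp] at h1
    exact h1
  · intro j hj
    refine ⟨0, fun x y hxy => ?_⟩
    have h1 := hP5 (p ^ (ν + 2)) hne A f I p hp.pos hI hb j hj x y hxy
    simp only [Pi.zero_apply, add_zero]
    exact h1
  · intro j hj
    obtain ⟨C, hC⟩ := hP6 (p ^ (ν + 2)) hne A f I p (p ^ (ν + 1)) hI (by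
      intro z hz
      have := ha z hz
      simpa using this) j hj
    refine ⟨C, fun x y hxy => ?_⟩
    have h1 := hC x y hxy
    simp only [Pi.zero_apply, zero_add]
    rw [← h1]
    refine Finset.sum_congr rfl fun i _ => ?_
    have e1 : (Polynomial.X ^ j * (1 - Polynomial.C ((p : ℤ) ^ (ν + 1) * i) * Polynomial.X) ^
        (2 * A - j) : Polynomial ℤ) = mp A 1 0 (-(i * (p ^ (ν + 1) : ℕ) : ℤ)) 1 j := by
      unfold mp
      congr 1
      · simp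
      · congr 1
        push_cast
        simp only [Polynomial.C_mul, Polynomial.C_neg, Polynomial.C_1]
        ring
    rw [e1]
    congr 1
    push_cast
    ring
  · have h1 := hP4 hP2 (p ^ (ν + 2)) hne A w f I hw hI hW
    have e : ((p ^ (ν + 2) : ℕ) : ℤ) = (p : ℤ) ^ (ν + 2) := by push_cast; rfl
    rw [← e]
    exact h1
  · refine ⟨fun l => fcK f l, fun l m hl hlp hm i hi x y hxy => ?_⟩
    exact hH3 (p ^ (ν + 2)) hne A f I l (fcK f l) m hI hl.pos (hf l hl hlp) hm i hi x y hxy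

/-- Level `p^n`, the coordinate `z` (only the group, Fricke, Hecke). -/
theorem hBrgNT (hA4 : SKA4) (hMod : SKMod) (hP1 : SKP1) (hP2 : SKP2) (hH3 : SKH3)
    (hP4 : StKP4W) (p A n : ℕ) (w : ℤ) (hw : Sg w) (hne : NeZero (p ^ n))
    (f : CuspForm (G0 (p ^ n)) (2 * A + 2))
    (hf : ∀ l : ℕ, l.Prime → l ≠ p → HeckeEigK f l (fcK f l)) (hW : FkRel A w f) :
    ∃ I : ℤ → ℤ → ℕ → ℂ, IsPotK A f I ∧ IDnT p A n w I := by
  obtain ⟨I, hI, hinf⟩ := hA4 (p ^ n) hne A f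
  refine ⟨I, hI, ?_⟩
  constructor
  · exact hP1 _ hne A f I hI
  · exact hinf
  · intro α β γ δ hdet hγ i hi
    have hM := hMod (p ^ n) hne A f α β γ δ hdet (by push_cast; exact hγ)
    obtain ⟨C, hC⟩ := hP2 (p ^ n) hne A f I α β γ δ 1 hI (by rw [hdet]; norm_num)
      (fun z hz => by rw [hM z hz, one_mul]) i hi
    refine ⟨C, fun x y hxy => ?_⟩
    have h1 := hC x y hxy
    rw [hdet] at h1
    simp only [Int.cast_one, one_mul, mp] at h1
    exact h1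
  · have h1 := hP4 hP2 (p ^ n) hne A w f I hw hI hW
    have e : ((p ^ n : ℕ) : ℤ) = (p : ℤ) ^ n := by push_cast; rfl
    rw [← e]
    exact h1
  · refine ⟨fun l => fcK f l, fun l m hl hlp hm i hi x y hxy => ?_⟩
    exact hH3 (p ^ n) hne A f I l (fcK f l) m hI hl.pos (hf l hl hlp) hm i hi x y hxy

/-- The twisted period vanishes with the central value. -/
theorem eI_zero (hJac : Jac) (hTLC : TLC) {N : ℕ} (hN : NeZero N) (A D : ℕ)
    (hD : Odd D) (hsq : Squarefree D) (f : CuspForm (G0 N) (2 * A + 2)) (I : ℤ → ℤ → ℕ → ℂ)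
    (hI : IsPotK A f I) (L : ℂ → ℂ) (hL : IsTwK D f L) (h0 : L (1 / 2) = 0) : eI A D I = 0 := by
  have hD0 : D ≠ 0 := by
    rintro rfl
    exact absurd hD (by decide)
  have hne : NeZero D := ⟨hD0⟩
  obtain ⟨χ, hprim, hinv, hχ⟩ := hJac D hD hsq
  have hχ' : ∀ m : ℕ, χ (m : ZMod D) = ((jacobiSym (m : ℤ) D : ℤ) : ℂ) := by
    intro m
    have := hχ (m : ℤ)
    rw [Int.cast_natCast] at this
    exact this
  have hL' : IsLTwK χ f L := by
    refine ⟨hL.1, fun s hs => ?_⟩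
    have := hL.2 s hs
    simp only [← hχ'] at this
    exact this
  have h := hTLC N hN A f D hne χ L I hprim hL' hI h0
  unfold eI
  rw [← h]
  refine Finset.sum_congr rfl fun u _ => ?_
  rw [hinv, hχ' u]
  rfl

/-- Existence of the twisted `L`-functions. -/
theorem isTwK_exists (hJac : Jac) (hTLE : TLE) {N : ℕ} (hN : NeZero N) (A D : ℕ)
    (hD : Odd D) (hsq : Squarefree D) (f : CuspForm (G0 N) (2 * A + 2)) :
    ∃ L : ℂ → ℂ, IsTwK D f L := by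
  have hD0 : D ≠ 0 := by
    rintro rfl
    exact absurd hD (by decide)
  have hne : NeZero D := ⟨hD0⟩
  obtain ⟨χ, hprim, hinv, hχ⟩ := hJac D hD hsq
  have hχ' : ∀ m : ℕ, χ (m : ZMod D) = ((jacobiSym (m : ℤ) D : ℤ) : ℂ) := by
    intro m
    have := hχ (m : ℤ)
    rw [Int.cast_natCast] at this
    exact this
  obtain ⟨L, hL⟩ := hTLE N hN A f D hne χ hprim
  refine ⟨L, hL.1, fun s hs => ?_⟩
  have := hL.2 s hs
  simp only [hχ'] at this
  exact this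

private theorem sg_jac (D : ℕ) : Sg (jacobiSym (-1) D) := by
  refine jacobiSym.eq_one_or_neg_one ?_
  simp

/-- Final step, level `p^(ν+2)`. -/
theorem hFinT (hA4 : SKA4) (hMod : SKMod) (hP1 : SKP1) (hP2 : SKP2) (hH3 : SKH3)
    (hP5 : SKP5) (hP6 : SKP6) (hP4 : StKP4W) (hB1 : SKB1) (hB2 : SKB2) (hB3 : SKB3)
    (hINS : StKINS) (hJac : Jac) (hTLC : TLC)
    (hTr : StTrT) (hTr2 : StTr2T) (hAll : StAllT)
    (p A ν D : ℕ) (hp : p.Prime) (hA : 1 ≤ A) (hD : Odd D) (hsq : Squarefree D)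
    (hpD : Nat.Coprime p D)
    (hC : ∀ Φ : ℤ → ℤ → ℕ → ℂ, WSymT p A ν D Φ → EqC (cp Φ A) 0)
    (hne : NeZero (p ^ (ν + 2))) (f : CuspForm (G0 (p ^ (ν + 2))) (2 * A + 2))
    (h1f : fcK f 1 = 1) (hf : ∀ l : ℕ, l.Prime → l ≠ p → HeckeEigK f l (fcK f l))
    (w : ℤ) (hw : Sg w) (hwe : w = jacobiSym (-1) D * jacobiSym p D ^ (ν + 2))
    (hW : FkRel A w f)
    (hb : ∀ z : ℂ, 0 < z.im → ∑ i ∈ Finset.range p, fzK f (z + i / p) = 0)
    (ha : ∀ z : ℂ, 0 < z.im → ∑ i ∈ Finset.range p,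
      ((i * (p : ℂ) ^ (ν + 2 - 1) * z + 1) ^ (2 * A + 2))⁻¹ *
      fzK f (z / (i * (p : ℂ) ^ (ν + 2 - 1) * z + 1)) = 0)
    (L : ℂ → ℂ) (hL : IsTwK D f L) : L (1 / 2) ≠ 0 := by
  intro h0
  obtain ⟨I, hI, hDat⟩ := hBrgT hA4 hMod hP1 hP2 hH3 hP5 hP6 hP4 p A ν w hp hw hne f hf hW hb ha
  have he := eI_zero hJac hTLC hne A D hD hsq f I hI L hL h0
  have hWS := hTr p A ν D I hp hD hpD (hwe ▸ hDat) he
  have hc := hAll p A ν D _ hp hWS (hC _ hWS)
  have hz := hTr2 p A ν w (jacobiSym (-1) D) I hp hDat hc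
  have h1 := hINS hB1 hB2 hB3 hP1 (p ^ (ν + 2)) hne A f I (jacobiSym (-1) D) (sg_jac D) hA hI
    (by
      intro j hj x y hxy
      have := hz j hj x y hxy
      rw [← this]
      ring) 1 le_rfl
  rw [h1f] at h1
  exact one_ne_zero h1

/-- Final step, level `p^n`, coordinate `z`. -/
theorem hFinNT (hA4 : SKA4) (hMod : SKMod) (hP1 : SKP1) (hP2 : SKP2) (hH3 : SKH3)
    (hP4 : StKP4W) (hB1 : SKB1) (hB2 : SKB2) (hB3 : SKB3)
    (hINS : StKINS) (hJac : Jac) (hTLC : TLC)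
    (hTr : StLTrT) (hAll : StLAllT)
    (p A n D : ℕ) (hp : p.Prime) (hA : 1 ≤ A) (hD : Odd D) (hsq : Squarefree D)
    (hpD : Nat.Coprime p D)
    (hC : ∀ Φ : ℤ → ℤ → ℕ → ℂ, WSNT p A n D Φ → EqC (cp Φ A) 0)
    (hne : NeZero (p ^ n)) (f : CuspForm (G0 (p ^ n)) (2 * A + 2))
    (h1f : fcK f 1 = 1) (hf : ∀ l : ℕ, l.Prime → l ≠ p → HeckeEigK f l (fcK f l))
    (w : ℤ) (hw : Sg w) (hwe : w = jacobiSym (-1) D * jacobiSym p D ^ n)
    (hW : FkRel A w f) (L : ℂ → ℂ) (hL : IsTwK D f L) : L (1 / 2) ≠ 0 := by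
  intro h0
  obtain ⟨I, hI, hDat⟩ := hBrgNT hA4 hMod hP1 hP2 hH3 hP4 p A n w hw hne f hf hW
  have he := eI_zero hJac hTLC hne A D hD hsq f I hI L hL h0
  have hWS := hTr p A n D I hp hD hpD (hwe ▸ hDat) he
  have hc := hAll p A n D _ hp hWS (hC _ hWS)
  have hz : ∀ j : ℕ, j ≤ 2 * A → ∀ x y : ℤ, (x ≠ 0 ∨ y ≠ 0) →
      I x y j + ((jacobiSym (-1) D : ℤ) : ℂ) * ((-1) ^ (A + j) * I (-x) y j) = 0 := by
    intro j hj x y hxy
    obtain ⟨c, hcc⟩ := hc j hj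
    have h1 := hcc 1 0 (Or.inl one_ne_zero)
    have h2 := hcc x y hxy
    have h10 : I 1 0 j = 0 := hDat.inf j hj
    have h10' : I (-1) 0 j = 0 := by
      have := hDat.hom j hj (-1) 1 0 (by norm_num) (Or.inl one_ne_zero)
      simp only [cp] at this
      rw [mul_one, mul_zero] at this
      rw [this]
      exact h10
    simp only [cp, PhNT, Pi.zero_apply, zero_add] at h1 h2
    rw [h10, h10', smul_zero, add_zero] at h1
    rw [← h1] at h2
    rw [← h2, zsmul_eq_mul]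
    push_cast
    ring
  have h1 := hINS hB1 hB2 hB3 hP1 (p ^ n) hne A f I (jacobiSym (-1) D) (sg_jac D) hA hI hz 1 le_rfl
  rw [h1f] at h1
  exact one_ne_zero h1

end Pool.Agent.Helper28.TK
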