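import Pool.Agent.Helper28.TK.M_KRN
import Pool.Agent.Helper28.TK.M_BrgT
import Pool.Agent.Helper28.T3E.StF
import Pool.Agent.Helper28.T3.StD

/-!
# The criterion in all even weights
-/

set_option autoImplicit false

open UpperHalfPlane CongruenceSubgroup
open scoped MatrixGroups NumberField

namespace Pool.Agent.Helper28.TK

open Pool.Agent.Helper14.CV (G0)
open Pool.Agent.Helper14.WK
open Pool.Agent.Helper28.LV (IsNewformA)
open Pool.Agent.Helper28.WK (cp)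
open Pool.Agent.Helper76.TG (TAt)
open Pool.Agent.Helper76.TX (Sg Jac)
open Pool.Agent.Helper14.T3 (Okt)
open Pool.Agent.Helper28.T3E (OkE StTDS SE)
open Pool.Agent.Helper28.T3 (StCNF StQFD TD)

/-- `D` is admissible of sign `e`. -/
def Adm (e : ℤ) (D : ℕ) : Prop := (e = -1 ∧ Okt D) ∨ (e = 1 ∧ OkE D)

theorem Adm.odd {e : ℤ} {D : ℕ} (h : Adm e D) : Odd D := by
  rcases h with ⟨-, h⟩ | ⟨-, h⟩
  · have := h.2.1
    exact Nat.odd_iff.mpr (by omega)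
  · have := h.2.2.1
    exact Nat.odd_iff.mpr (by omega)

theorem Adm.sq {e : ℤ} {D : ℕ} (h : Adm e D) : Squarefree D := by
  rcases h with ⟨-, h⟩ | ⟨-, h⟩
  · exact h.1
  · exact h.2.1

theorem Adm.cop {e : ℤ} {D : ℕ} (h : Adm e D) : Nat.Coprime 3 D := by
  rw [Nat.Prime.coprime_iff_not_dvd Nat.prime_three]
  rcases h with ⟨-, h⟩ | ⟨-, h⟩
  · have := h.2.1
    omega
  · have := h.2.2.1
    omega

/-- `χ(3) = -1` and `χ(-1) = e`. -/
theorem Adm.signs {e : ℤ} {D : ℕ} (h : Adm e D) :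
    jacobiSym 3 D = -1 ∧ jacobiSym (-1) D = e := by
  have hodd := h.odd
  have key : ∀ r : ℕ, D % 12 = r → (r = 7 ∨ r = 5) → jacobiSym 3 D = -1 ∧
      jacobiSym (-1) D = (if r = 7 then -1 else 1) := by
    intro r hr hr2
    have h3 : jacobiSym (D : ℤ) 3 = jacobiSym ((D : ℤ) % 3) 3 := by
      conv_lhs => rw [jacobiSym.mod_left]
      rfl
    rcases hr2 with rfl | rfl
    · refine ⟨?_, ?_⟩
      · have hD4 : D % 4 = 3 := by omega
        have h1 := jacobiSym.quadratic_reciprocity_three_mod_four (a := 3) (b := D) (by norm_num) hD4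
        have h2 : (D : ℤ) % 3 = 1 := by omega
        rw [h3, h2] at h1
        have h4 : jacobiSym 1 3 = 1 := jacobiSym.one_left 3
        rw [h4] at h1
        exact_mod_cast h1
      · rw [if_pos rfl, jacobiSym.at_neg_one hodd]
        exact ZMod.χ₄_nat_three_mod_four (by omega)
    · refine ⟨?_, ?_⟩
      · have hD4 : D % 4 = 1 := by omega
        have h1 := jacobiSym.quadratic_reciprocity_one_mod_four (a := D) (b := 3) hD4
          (by decide)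
        have h2 : (D : ℤ) % 3 = 2 := by omega
        rw [h3, h2] at h1
        have h4 : jacobiSym 2 3 = -1 := by
          rw [jacobiSym.at_two (by decide)]
          decide
        rw [h4] at h1
        exact_mod_cast h1.symm
      · rw [if_neg (by norm_num), jacobiSym.at_neg_one hodd]
        exact ZMod.χ₄_nat_one_mod_four (by omega)
  rcases h with ⟨he, h⟩ | ⟨he, h⟩
  · obtain ⟨h1, h2⟩ := key 7 h.2.1 (Or.inl rfl)
    refine ⟨h1, ?_⟩
    rw [h2, he]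
    rfl
  · obtain ⟨h1, h2⟩ := key 5 h.2.2.1 (Or.inr rfl)
    refine ⟨h1, ?_⟩
    rw [h2, he]
    rfl

/-- The root number of the twist. -/
theorem Adm.sign_eq {w : ℤ} {n D : ℕ} (h : Adm (w * (-1) ^ n) D) :
    w = jacobiSym (-1) D * jacobiSym 3 D ^ n := by
  obtain ⟨h1, h2⟩ := h.signs
  rw [h1, h2]
  have hpow : ((-1 : ℤ)) ^ n * (-1) ^ n = 1 := by
    rw [← mul_pow]
    simp
  rw [mul_assoc, hpow, mul_one]

/-- The final statement for the levels `3^n`, `n ∈ S`. -/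
def Crit (S : ℕ → Prop) : Prop := ∀ (A n : ℕ) (_ : NeZero (3 ^ n)) (hk : 0 < (2 * A + 2 : ℤ))
  (f : CuspForm (G0 (3 ^ n)) (2 * A + 2)), 1 ≤ A → S n → IsNewformA 3 n f →
  ∃ w : ℤ, Sg w ∧ RootNumK w hk f ∧
    (∀ D : ℕ, Odd D → Squarefree D → ∃ L : ℂ → ℂ, IsTwK D f L) ∧
    ∀ D : ℕ, Adm (w * (-1) ^ n) D → ∀ L : ℂ → ℂ, IsTwK D f L → L (1 / 2) ≠ 0

/-- The content of `hFinT`. -/
def FIN2 : Prop := ∀ (A ν D : ℕ), 1 ≤ A → Odd D → Squarefree D → Nat.Coprime 3 D →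
  TAt 3 D → ∀ (_ : NeZero (3 ^ (ν + 2))) (f : CuspForm (G0 (3 ^ (ν + 2))) (2 * A + 2)),
  fcK f 1 = 1 → (∀ l : ℕ, l.Prime → l ≠ 3 → HeckeEigK f l (fcK f l)) → ∀ w : ℤ, Sg w →
  w = jacobiSym (-1) D * jacobiSym 3 D ^ (ν + 2) → FkRel A w f →
  (∀ z : ℂ, 0 < z.im → ∑ i ∈ Finset.range 3, fzK f (z + i / (3 : ℕ)) = 0) →
  (∀ z : ℂ, 0 < z.im → ∑ i ∈ Finset.range 3,
      ((i * ((3 : ℕ) : ℂ) ^ (ν + 2 - 1) * z + 1) ^ (2 * A + 2))⁻¹ *
      fzK f (z / (i * ((3 : ℕ) : ℂ) ^ (ν + 2 - 1) * z + 1)) = 0) →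
  ∀ L : ℂ → ℂ, IsTwK D f L → L (1 / 2) ≠ 0

/-- The content of `hFinNT` for `n`. -/
def FIN0 (n : ℕ) : Prop := ∀ (A D : ℕ), 1 ≤ A → Odd D → Squarefree D → Nat.Coprime 3 D →
  TAt 3 D → ∀ (_ : NeZero (3 ^ n)) (f : CuspForm (G0 (3 ^ n)) (2 * A + 2)),
  IsNewformA 3 n f → ∀ w : ℤ, Sg w →
  w = jacobiSym (-1) D * jacobiSym 3 D ^ n → FkRel A w f →
  ∀ L : ℂ → ℂ, IsTwK D f L → L (1 / 2) ≠ 0

theorem crit2 (hKRN : KRN) (hJac : Jac) (hTLE : TLE) (hF : FIN2)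
    (hTA : ∀ (e : ℤ) (D : ℕ), Adm e D → TAt 3 D) : Crit fun n => 2 ≤ n := by
  intro A n hne hk f hA hn hf
  obtain ⟨ν, rfl⟩ : ∃ ν, n = ν + 2 := ⟨n - 2, by omega⟩
  have hK := hf.toK (by omega)
  obtain ⟨w, hw, hR, hFk, hb, ha⟩ := hKRN 3 (ν + 2) hne A hk f Nat.prime_three hn hK
  refine ⟨w, hw, hR, fun D hD hsq => isTwK_exists hJac hTLE hne A D hD hsq f, ?_⟩
  intro D hAd L hL
  exact hF A ν D hA hAd.odd hAd.sq hAd.cop (hTA _ D hAd) hne f hf.normalised hf.hecke w hw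
    hAd.sign_eq hFk hb ha L hL

theorem crit0 (hKRN0 : KRN0) (hJac : Jac) (hTLE : TLE) (hF : FIN0 0)
    (hTA : ∀ (e : ℤ) (D : ℕ), Adm e D → TAt 3 D) : Crit fun n => n = 0 := by
  intro A n hne hk f hA hn hf
  subst hn
  obtain ⟨hR, hFk⟩ := hKRN0 (3 ^ 0) hne A hk f (pow_zero 3)
  refine ⟨(-1) ^ (A + 1), neg_one_pow_eq_or ℤ (A + 1), hR,
    fun D hD hsq => isTwK_exists hJac hTLE hne A D hD hsq f, ?_⟩
  intro D hAd L hL
  exact hF A D hA hAd.odd hAd.sq hAd.cop (hTA _ D hAd) hne f hf _ (neg_one_pow_eq_or ℤ (A + 1))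
    hAd.sign_eq hFk L hL

/-! ### From class numbers to `Adm` -/

private theorem okt_of {D : ℕ} (hcnf : StCNF) (hqfd : StQFD) (hsq : Squarefree D)
    (hmod : D % 12 = 7) (K : Type) [Field K] [NumberField K] (hK : Module.finrank ℚ K = 2)
    (hh : ¬ 3 ∣ NumberField.classNumber K) (hdisc : NumberField.discr K = -(D : ℤ)) : Okt D := by
  refine ⟨hsq, hmod, ?_⟩
  obtain ⟨q⟩ := hqfd D K (by omega) hK hdisc
  have h := hcnf D K q hsq (by omega) (by omega)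
  intro h3
  have h4 : (3 : ℤ) ∣ TD D := h3
  have h5 : (3 : ℤ) ∣ (D : ℤ) * NumberField.classNumber K := by
    rw [h]
    exact (dvd_abs _ _).2 h4
  have hp : Prime (3 : ℤ) := Int.prime_three
  rcases hp.dvd_or_dvd h5 with h6 | h6
  · have h7 : 3 ∣ D := by exact_mod_cast h6
    omega
  · exact hh (by exact_mod_cast h6)

private theorem sqf3 {D : ℕ} (hsq : Squarefree D) (hmod : D % 12 = 5) : Squarefree (3 * D) := by
  have hc : Nat.Coprime 3 D := by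
    rw [Nat.Prime.coprime_iff_not_dvd Nat.prime_three]
    omega
  exact (Nat.squarefree_mul hc).2 ⟨Nat.prime_three.squarefree, hsq⟩

private theorem oke_of {D : ℕ} (hcnf : StCNF) (hqfd : StQFD) (htds : StTDS) (h1 : 1 < D)
    (hsq : Squarefree D) (hmod : D % 12 = 5) (K : Type) [Field K] [NumberField K]
    (hK : Module.finrank ℚ K = 2) (hh : ¬ 3 ∣ NumberField.classNumber K)
    (hdisc : NumberField.discr K = -(3 * D : ℤ)) : OkE D := by
  refine ⟨h1, hsq, hmod, ?_⟩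
  have hdisc' : NumberField.discr K = -((3 * D : ℕ) : ℤ) := by
    rw [hdisc]
    push_cast
    ring
  obtain ⟨q⟩ := hqfd (3 * D) K (by omega) hK hdisc'
  have h := hcnf (3 * D) K q (sqf3 hsq hmod) (by omega) (by omega)
  rw [htds D h1 hsq hmod] at h
  intro h3
  obtain ⟨k, hk⟩ := h3
  rw [hk] at h
  have hD0 : (0 : ℤ) < D := by exact_mod_cast (by omega : 0 < D)
  have e : (-6 * (D : ℤ) * (3 * k)) = (3 * D) * (-(6 * k)) := by ring
  rw [e, abs_mul, abs_of_pos (by positivity : (0 : ℤ) < 3 * D)] at h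
  push_cast at h
  have h4 : ((NumberField.classNumber K : ℕ) : ℤ) = |-(6 * k)| :=
    mul_left_cancel₀ (by positivity) h
  apply hh
  have h5 : (3 : ℤ) ∣ ((NumberField.classNumber K : ℕ) : ℤ) := by
    rw [h4, dvd_abs, dvd_neg]
    exact ⟨2 * k, by ring⟩
  exact_mod_cast h5

theorem adm_of {e : ℤ} {D : ℕ} (hcnf : StCNF) (hqfd : StQFD) (htds : StTDS)
    (hsq : Squarefree D) (K : Type) [Field K] [NumberField K]
    (hK : Module.finrank ℚ K = 2) (hh : ¬ 3 ∣ NumberField.classNumber K)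
    (hc : (e = -1 ∧ D % 12 = 7 ∧ NumberField.discr K = -(D : ℤ)) ∨
      (e = 1 ∧ 1 < D ∧ D % 12 = 5 ∧ NumberField.discr K = -(3 * D : ℤ))) : Adm e D := by
  rcases hc with ⟨h1, h2, h3⟩ | ⟨h1, h2, h3, h4⟩
  · exact Or.inl ⟨h1, okt_of hcnf hqfd hsq h2 K hK hh h3⟩
  · exact Or.inr ⟨h1, oke_of hcnf hqfd htds h2 hsq h3 K hK hh h4⟩

end Pool.Agent.Helper28.TK
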