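import Pool.Agent.Helper28.LV.M_GenL
import Pool.Agent.Helper28.TK.M_Crit
import Pool.Agent.Helper64.TK.M_TN1
import Pool.Agent.Helper67.TK.M_TN2
import Pool.Agent.Helper48.TK.M_TN4
import Pool.Agent.Helper21.TK.M_TN5
import Pool.Agent.Helper22.TK.M_TN6
import Pool.Agent.Helper33.TK.M_TLE
import Pool.Agent.Helper66.TK.M_TLC
import Pool.Agent.Helper38.TK.M_KRW
import Pool.Agent.Helper40.TK.M_KRFE
import Pool.Agent.Helper82.TK.M_KRH
import Pool.Agent.Helper68.TK.M_KRT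
import Pool.Agent.Helper88.TK.M_KRC
import Pool.Agent.Helper11.TK.M_KR0
import Pool.Agent.Helper8.TK.M_KRN0
import Pool.Agent.Helper33.TK.M_KP4W
import Pool.Agent.Helper1.TK.M_KINS
import Pool.Agent.Helper29.TX.M_AN3
import Pool.Agent.Helper77.TX.M_Jac

/-!
# Project TK: assembly of the analytic part
-/

set_option autoImplicit false

open Pool.Agent.Helper14.WK

namespace Pool.Agent.Helper28.TK

open Pool.Agent.Helper76.TX (Jac StAN3)

theorem jac : Jac := Pool.Agent.Helper77.TX.hJac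

theorem ka1 : SKA1 := Pool.Agent.Helper63.WK.hKA1

theorem tn6 : TN6 :=
  Pool.Agent.Helper22.TK.hTN6 (Pool.Agent.Helper6.WK.hKE ka1) (Pool.Agent.Helper92.WK.hKA1b ka1)
    Pool.Agent.Helper64.TK.hTN1 Pool.Agent.Helper67.TK.hTN2

theorem tn5 : TN5 :=
  Pool.Agent.Helper21.TK.hTN5 ka1 Pool.Agent.Helper29.TX.hAN3 Pool.Agent.Helper48.TK.hTN4

theorem tle : TLE := Pool.Agent.Helper33.TK.hTLE ka1 tn5 tn6 Pool.Agent.Helper29.TX.hAN3

theorem tlc : TLC := Pool.Agent.Helper66.TK.hTLC tn5 tn6 Pool.Agent.Helper29.TX.hAN3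

theorem krn : KRN := by
  have kmod := Pool.Agent.Helper32.WK.hKMod
  have h1 := Pool.Agent.Helper79.WK.hKH1 ka1
  have n3 := Pool.Agent.Helper7.WK.hKN3 h1 kmod Pool.Agent.Helper10.CV.hN1
  exact hKRN ka1 Pool.Agent.Helper28.LV.ana.2.2.2.2.2.2.1 Pool.Agent.Helper38.TK.hKRW
    Pool.Agent.Helper40.TK.hKRFE
    (Pool.Agent.Helper82.TK.hKRH h1 kmod Pool.Agent.Helper10.CV.hN1)
    Pool.Agent.Helper68.TK.hKRT Pool.Agent.Helper88.TK.hKRC Pool.Agent.Helper11.TK.hKR0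
    kmod Pool.Agent.Helper22.WK.hKN2 n3

theorem krn0 : KRN0 :=
  Pool.Agent.Helper8.TK.hKRN0 Pool.Agent.Helper40.TK.hKRFE Pool.Agent.Helper32.WK.hKMod

end Pool.Agent.Helper28.TK
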