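import Pool.Agent.Helper28.TK.M_Gen
import Pool.Agent.Helper76.TG.Fin
import Pool.Agent.Helper87.TG.M_TrT
import Pool.Agent.Helper65.TG.M_Tr2T
import Pool.Agent.Helper99.TG.M_LTrT
import Pool.Agent.Helper14.TK.Full

/-!
# Project T3K: the closed statements for all primes `p`, levels `p^n` with `n ≠ 1`
-/

set_option autoImplicit false

namespace Pool.Agent.Helper28.TK

open Pool.Agent.Helper76.TG

theorem gen2 (p : ℕ) (hp : p.Prime) (n : ℕ) (hn : 2 ≤ n) : GenP p n :=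
  genP2 Pool.Agent.Helper76.TG.cen2 Pool.Agent.Helper87.TG.hTrT Pool.Agent.Helper65.TG.hTr2T
    Pool.Agent.Helper76.TG.hAllT p hp n hn

theorem gen0 (p : ℕ) (hp : p.Prime) : GenP p 0 :=
  genP0 Pool.Agent.Helper76.TG.cen0 Pool.Agent.Helper99.TG.hLTrT
    Pool.Agent.Helper76.TG.hLAllT p hp

end Pool.Agent.Helper28.TK
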