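import Pool.Agent.Helper28.TK.M_BrgW2
import Pool.Agent.Helper28.TK.StW
import Pool.Agent.Helper4.TK.Defs

/-!
# Project TK: the definitions of `Helper4/TK/Defs.lean` and of `Helper28/TK/Defs.lean` agree; the final theorems in weight two
-/

set_option autoImplicit false

namespace Pool.Agent.Helper28.TK

open Pool.Agent.Helper14.CV (Homog EqC act Tl G0)
open Pool.Agent.Helper28.WK (evw)
open Pool.Agent.Helper28.TH (OkH ALPlus)
open Pool.Agent.Helper28.TL (IsNewN)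
open Pool.Agent.Helper4.TK (KTy SymK NewSymK OkK)

theorem hty_iff (a b c d : ℤ) : KTy a b c d ↔ HTy a b c d := Iff.rfl

theorem okK_iff (p : ℕ) (ls : List ℕ) : OkK p ls ↔ OkH 3 p ls := Iff.rfl

theorem symK_iff {R : Type} [AddCommGroup R] (p r s : ℕ) (G : ℤ → ℤ → R) :
    SymK p r s G ↔ SymH p r s G := Iff.rfl

theorem newSymK_iff (p n : ℕ) (G : ℤ → ℤ → ℂ) : NewSymK p n G ↔ NewSymH p n G := Iff.rfl

/-- Levels `3 p^n`, `n ≥ 2`, weight two. -/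
theorem finalKN (p n : ℕ) (hp : p.Prime) (hp3 : p ≠ 3) (hn : 2 ≤ n)
    (core : ∀ G : ℤ → ℤ → ℂ, NewSymK p n G → (∀ ls : List ℕ, OkK p ls → evw 1 ls G = 0) → EqC G 0)
    [NeZero (3 * p ^ n)] (f : CuspForm (G0 (3 * p ^ n)) 2) (hf : IsNewN f)
    (hal : ALPlus 3 (p ^ n) f) (hR : Pool.Agent.Helper14.CV.RootOne f) :
    Pool.Agent.Helper14.CV.Lan f (1 / 2) ≠ 0 :=
  finalHN p n hp hp3 hn core f hf hal hR

/-- Any level `3 p^n`, weight two, without the relations at `p` (to be used for `n ≤ 1`). -/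
theorem finalKS (p n : ℕ) (hp : p.Prime) (hp3 : p ≠ 3)
    (core : ∀ G : ℤ → ℤ → ℂ, SymK p 0 n G → EqC (act 0 (-1) (3 * (p : ℤ) ^ n) 0 G) (-G) →
      EqC (act (-1) 0 0 1 G) G → (∀ ls : List ℕ, OkK p ls → evw 1 ls G = 0) → EqC G 0)
    [NeZero (3 * p ^ n)] (f : CuspForm (G0 (3 * p ^ n)) 2) (hf : IsNewN f)
    (hal : ALPlus 3 (p ^ n) f) (hR : Pool.Agent.Helper14.CV.RootOne f) :
    Pool.Agent.Helper14.CV.Lan f (1 / 2) ≠ 0 :=
  finalHS p n hp hp3 core f hf hal hR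

/-- Theorem A in the terms of `Helper4/TK/Defs.lean`. -/
theorem tah_of (p : ℕ) (κ : ℤ)
    (h : ∀ (m M : ℕ) (g : ℤ → ℤ → ZMod (p ^ M)), 5 ≤ m → SymK p 0 m g →
      EqC (act 0 (-1) (3 * (p : ℤ) ^ m) 0 g) (-g) → EqC (act (-1) 0 0 1 g) g →
      (∀ ls : List ℕ, OkK p ls → evw 1 ls g = 0) →
      ∃ ψ : ℤ → ℤ → ZMod (p ^ M), SymK p 0 (m - 1) ψ ∧ EqC (act p 0 0 1 ψ - ψ) (κ • g)) :
    TAH p κ := h

end Pool.Agent.Helper28.TK
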