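import Pool.Agent.Helper28.TK.StV
import Pool.Agent.Helper28.TK.M_RgU3
import Pool.Agent.Helper79.TLN.StN

/-!
# Project TK (levels `3 p^n`, `f | W_3 = f`): the statements of `Helper28/TH/StN.lean` with `3` in place of `2` and the same names
-/

set_option autoImplicit false

open Pool.Agent.Helper14.CV (G0 Homog EqC act StFar)
open Pool.Agent.Helper28.WK
open Pool.Agent.Helper14.WK

namespace Pool.Agent.Helper28.TK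

open Pool.Agent.Helper28.LV
open Pool.Agent.Helper28.TH (OkH ALPlus)

/-- As the item of the same name in `Helper28/TH/StN.lean` (proof there), with `3` in place of `2`. -/
structure L1H {R : Type} [AddCommGroup R] (p a : ℕ) (κ : ℤ) (Φ Ψ : ℤ → ℤ → ℕ → R) : Prop where
  hom : ∀ i : ℕ, i ≤ 2 * a → Homog (cp Ψ i)
  inf : ∀ i : ℕ, i ≤ 2 * a → Ψ 1 0 i = 0
  eqv : ∀ α β γ δ : ℤ, HTy α β γ δ → ∀ i : ℕ, i ≤ 2 * a →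
    EqC (((α * δ - β * γ) ^ a : ℤ) • act α β γ δ (cp Ψ i))
      (pr Ψ ((Polynomial.C α * Polynomial.X + Polynomial.C β) ^ i *
        (Polynomial.C γ * Polynomial.X + Polynomial.C δ) ^ (2 * a - i)))
  rel : ∀ t : ℕ, t ≤ 2 * a → ∀ x y : ℤ, (x ≠ 0 ∨ y ≠ 0) →
    (κ * (p : ℤ) ^ t) • (Φ x y t - Φ 1 0 t) =
      ((p : ℤ) ^ a) • Ψ (p * x) y t - ((p : ℤ) ^ t) • Ψ x y t

/-- As the item of the same name in `Helper28/TH/StN.lean` (proof there), with `3` in place of `2`. -/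
def FSysH (p a : ℕ) (κ : ℤ) [Fact p.Prime] (Φ : ℤ → ℤ → ℕ → ℤ_[p])
    (F : ℤ → ℤ → ℤ → ℤ → ℚ_[p] → ℚ_[p] → ℚ_[p] → ℚ_[p] → ℚ_[p]) : Prop :=
  (∀ v1 v2 w1 w2 : ℤ, (v1 ≠ 0 ∨ v2 ≠ 0) → (w1 ≠ 0 ∨ w2 ≠ 0) → Rg a (F v1 v2 w1 w2)) ∧
  (∀ v1 v2 w1 w2 z1 z2 : ℤ, (v1 ≠ 0 ∨ v2 ≠ 0) → (w1 ≠ 0 ∨ w2 ≠ 0) → (z1 ≠ 0 ∨ z2 ≠ 0) →
    ∀ α β γ δ : ℚ_[p], F v1 v2 w1 w2 α β γ δ + F w1 w2 z1 z2 α β γ δ = F v1 v2 z1 z2 α β γ δ) ∧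
  (∀ v1 v2 w1 w2 k : ℤ, (v1 ≠ 0 ∨ v2 ≠ 0) → (w1 ≠ 0 ∨ w2 ≠ 0) → k ≠ 0 →
    ∀ α β γ δ : ℚ_[p], F v1 v2 (k * w1) (k * w2) α β γ δ = F v1 v2 w1 w2 α β γ δ) ∧
  (∀ v1 v2 w1 w2 : ℤ, (v1 ≠ 0 ∨ v2 ≠ 0) → (w1 ≠ 0 ∨ w2 ≠ 0) → ∀ x y z t : ℤ, HTy x y z t →
    ∀ α β γ δ : ℚ_[p], (((x * t - y * z) ^ a : ℤ) : ℚ_[p]) *
        F (x * v1 + y * v2) (z * v1 + t * v2) (x * w1 + y * w2) (z * w1 + t * w2) α β γ δ =
        F v1 v2 w1 w2 (α * x + β * z) (α * y + β * t) (γ * x + δ * z) (γ * y + δ * t)) ∧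
  (∀ v1 v2 w1 w2 : ℤ, (v1 ≠ 0 ∨ v2 ≠ 0) → (w1 ≠ 0 ∨ w2 ≠ 0) → ∀ α β γ δ : ℚ_[p],
    (κ : ℚ_[p]) * EGf a Φ v1 v2 w1 w2 α β γ δ =
      F (p * v1) v2 (p * w1) w2 α (p * β) (γ / p) δ - F v1 v2 w1 w2 α β γ δ)

/-- As the item of the same name in `Helper28/TH/StN.lean` (proof there), with `3` in place of `2`. -/
def ZQFa : Prop := MSH → RgT → EG → ∀ (p : ℕ) (_ : Fact p.Prime) (κ : ℤ) (a : ℕ)
  (Φ : ℤ → ℤ → ℕ → ℤ_[p]) (ψ : ℤ → ℤ → ℤ_[p]), p ≠ 3 →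
  (∀ α β γ δ : ℤ, α * δ - β * γ = 1 → (3 : ℤ) ∣ γ → (p : ℤ) ∣ γ →
    EqC (act α β γ δ (cp Φ a)) (pr Φ ((Polynomial.C α * Polynomial.X + Polynomial.C β) ^ a *
      (Polynomial.C γ * Polynomial.X + Polynomial.C δ) ^ a))) →
  Homog ψ → (∀ M : ℕ, 3 ≤ M → SymH p M M (redP M ψ)) →
  EqC (act p 0 0 1 ψ - ψ) (κ • cp Φ a) →
  (∀ h : ℤ, EqC (Nb a h ψ) 0) → (∀ c : ℤ, 3 * (p : ℤ) ∣ c → EqC (Nc a c (act p 0 0 1 ψ)) 0) →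
  ∃ F : ℤ → ℤ → ℤ → ℤ → ℚ_[p] → ℚ_[p] → ℚ_[p] → ℚ_[p] → ℚ_[p], FSysH p a κ Φ F

/-- As the item of the same name in `Helper28/TH/StN.lean` (proof there), with `3` in place of `2`. -/
def ZQFb : Prop := RgT → ∀ (p : ℕ) (_ : Fact p.Prime) (a : ℕ) (κ : ℤ) (Φ : ℤ → ℤ → ℕ → ℤ_[p])
  (F : ℤ → ℤ → ℤ → ℤ → ℚ_[p] → ℚ_[p] → ℚ_[p] → ℚ_[p] → ℚ_[p]), FSysH p a κ Φ F →
  ∃ Ψ : ℤ → ℤ → ℕ → ℚ_[p], L1H p a κ (fun x y i => (Φ x y i : ℚ_[p])) Ψ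

/-- As the item of the same name in `Helper28/TH/StN.lean` (proof there), with `3` in place of `2`. -/
def FGH : Prop := ∀ (p a n : ℕ) (R : Type) (_ : AddCommGroup R) (Φ : ℤ → ℤ → ℕ → R), p.Prime →
  WSNH p a n Φ → ∃ S : Finset R, ∀ i : ℕ, i ≤ 2 * a → ∀ x y : ℤ, (x ≠ 0 ∨ y ≠ 0) →
    Φ x y i - Φ 1 0 i ∈ AddSubgroup.closure (S : Set R)

/-- As the item of the same name in `Helper28/TH/StN.lean` (proof there), with `3` in place of `2`. -/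
def ZFG : Prop := StFar → FGH

/-- As the item of the same name in `Helper28/TH/StN.lean` (proof there), with `3` in place of `2`. -/
def ZDC : Prop := FGH → StFar → ZLMap → ZLDen → ∀ (p : ℕ) (_ : Fact p.Prime) (a : ℕ) (κ : ℤ),
  (∀ Φ : ℤ → ℤ → ℕ → ℤ_[p], WSNH p a 1 Φ →
    ∃ Ψ : ℤ → ℤ → ℕ → ℚ_[p], L1H p a κ (fun x y i => (Φ x y i : ℚ_[p])) Ψ) →
  ∀ Φ : ℤ → ℤ → ℕ → ℂ, WSNH p a 1 Φ → ∃ Ψ : ℤ → ℤ → ℕ → ℂ, L1H p a κ Φ Ψ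

/-- As the item of the same name in `Helper28/TH/StN.lean` (proof there), with `3` in place of `2`. -/
def NSK : Prop := ∀ (N p a : ℕ) (_ : NeZero N) (κ : ℤ) (f : CuspForm (G0 N) (2 * a + 2))
  (I Ψ : ℤ → ℤ → ℕ → ℂ), p.Prime → Even a → 1 ≤ a → IsPotK a f I →
  (∀ i : ℕ, i ≤ 2 * a → I 1 0 i = 0) → (∀ i : ℕ, i ≤ 2 * a → Homog (cp I i)) →
  L1H p a κ (PhN a I) Ψ → ∀ r q : ℤ, 0 < q →
  ∑ t ∈ Finset.range (2 * a + 1), ((2 * a).choose t : ℂ) * (-(r : ℂ)) ^ (2 * a - t) * (q : ℂ) ^ t *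
    Ψ r q t = (κ : ℂ) * Complex.I * (q : ℂ) ^ (2 * a) * Gp p a f ((r : ℝ) / (q : ℝ))

/-- As the item of the same name in `Helper28/TH/StN.lean` (proof there), with `3` in place of `2`. -/
def ZNS : Prop := SKB1 → SKB2 → SKB3 → NSK

/-- As the item of the same name in `Helper28/TH/StN.lean` (proof there), with `3` in place of `2`. -/
def NRH : Prop := ∀ (N p a : ℕ) (_ : NeZero N) (κ : ℤ) (f : CuspForm (G0 N) (2 * a + 2))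
  (I Ψ : ℤ → ℤ → ℕ → ℂ), κ ≠ 0 → p.Prime → Even a → 1 ≤ a → IsPotK a f I →
  (∀ i : ℕ, i ≤ 2 * a → I 1 0 i = 0) → (∀ i : ℕ, i ≤ 2 * a → Homog (cp I i)) →
  L1H p a κ (PhN a I) Ψ → ∃ P : Polynomial ℂ, P.natDegree ≤ 2 * a ∧
    ∀ x : ℝ, x ≠ 0 → (3 : ℂ) ^ a * (x : ℂ) ^ (2 * a) * Gp p a f (-1 / (3 * x)) =
      Gp p a f x + P.eval (x : ℂ)

/-- As the item of the same name in `Helper28/TH/StN.lean` (proof there), with `3` in place of `2`. -/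
def ZNR : Prop := SKB1 → SKB3 → NSK → NRH

/-- As the item of the same name in `Helper28/TH/StN.lean` (proof there), with `3` in place of `2`. -/
def NEH : Prop := ∀ (N p a : ℕ) (_ : NeZero N) (f : CuspForm (G0 N) (2 * a + 2)),
  p.Prime → Even a → 1 ≤ a →
  bco p a f 0 = 0 ∧ bco p a f 1 = fcK f 1 ∧
  Summable (fun M : ℕ => ‖bco p a f M‖ / (M : ℝ) ^ (2 * a + 1)) ∧
  ∀ x : ℝ, Gp p a f x = ((2 * a).factorial : ℂ) * Complex.I *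
    (EE (2 * a) (bco p a f) x + EE (2 * a) (bco p a f) (-x))

/-- As the item of the same name in `Helper28/TH/StN.lean` (proof there), with `3` in place of `2`. -/
def ZNE : Prop := SKA1 → Pool.Agent.Helper79.TLN.NHE → NEH

/-- As the item of the same name in `Helper28/TH/StN.lean` (proof there), with `3` in place of `2`. -/
def CA5H : Prop := ∀ (a : ℕ) (b : ℕ → ℂ) (P : Polynomial ℂ), P.natDegree ≤ 2 * a → b 0 = 0 →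
  Summable (fun M : ℕ => ‖b M‖ / (M : ℝ) ^ (2 * a + 1)) →
  (∀ x : ℝ, x ≠ 0 → (3 : ℂ) ^ a * (x : ℂ) ^ (2 * a) *
      (EE (2 * a) b (-1 / (3 * (x : ℂ))) + EE (2 * a) b (1 / (3 * (x : ℂ)))) =
    EE (2 * a) b x + EE (2 * a) b (-x) + P.eval (x : ℂ)) →
  ∀ z : ℂ, 0 < z.im → FF b (-1 / (3 * z)) = (3 : ℂ) ^ (a + 1) * z ^ (2 * a + 2) * FF b z

/-- As the item of the same name in `Helper28/TH/StN.lean` (proof there), with `3` in place of `2`. -/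
def ZCA5 : Prop := CA1 → CA2 → CA3 → CA4 → CA5H

/-- As the item of the same name in `Helper28/TH/StN.lean` (proof there), with `3` in place of `2`. -/
def ZMF : Prop := ∀ (a : ℕ) (b : ℕ → ℂ), b 0 = 0 →
  Summable (fun M : ℕ => ‖b M‖ / (M : ℝ) ^ (2 * a + 1)) →
  (∀ z : ℂ, 0 < z.im → FF b (-1 / (3 * z)) = (3 : ℂ) ^ (a + 1) * z ^ (2 * a + 2) * FF b z) →
  ∃ g : CuspForm (G0 3) (2 * a + 2), ∀ M : ℕ, fcK g M = b M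

end Pool.Agent.Helper28.TK
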