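import Pool.Agent.Helper28.TK.StW
import Pool.Agent.Helper28.LV.StL

/-!
# Project TK (levels `3 p^n`, `f | W_3 = f`): the statements of `Helper28/TH/StV.lean` with `3` in place of `2` and the same names
-/

set_option autoImplicit false

open Pool.Agent.Helper14.CV

namespace Pool.Agent.Helper28.TK

open Pool.Agent.Helper28.WK
open Pool.Agent.Helper28.LV
open Pool.Agent.Helper28.TH (OkH ALPlus)

/-- As the item of the same name in `Helper28/TH/StV.lean` (proof there), with `3` in place of `2`. -/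
structure WSNH {R : Type} [AddCommGroup R] (p a n : ℕ) (Φ : ℤ → ℤ → ℕ → R) : Prop where
  hom : ∀ i : ℕ, i ≤ 2 * a → Homog (cp Φ i)
  eqv : ∀ α β γ δ : ℤ, α * δ - β * γ = 1 → (3 : ℤ) ∣ γ → (p : ℤ) ^ n ∣ γ → ∀ i : ℕ, i ≤ 2 * a →
    EqC (act α β γ δ (cp Φ i)) (pr Φ ((Polynomial.C α * Polynomial.X + Polynomial.C β) ^ i *
      (Polynomial.C γ * Polynomial.X + Polynomial.C δ) ^ (2 * a - i)))
  eqq : ∀ α β γ δ : ℤ, α * δ - β * γ = 3 → (3 : ℤ) ∣ α → (3 : ℤ) ∣ γ → (3 : ℤ) ∣ δ →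
    (p : ℤ) ^ n ∣ γ → ∀ i : ℕ, i ≤ 2 * a →
    EqC ((3 ^ a : ℤ) • act α β γ δ (cp Φ i)) (pr Φ ((Polynomial.C α * Polynomial.X + Polynomial.C β) ^ i *
      (Polynomial.C γ * Polynomial.X + Polynomial.C δ) ^ (2 * a - i)))
  fr : EqC (act 0 (-1) (3 * (p : ℤ) ^ n) 0 (cp Φ a)) (-(cp Φ a))
  st : EqC (act (-1) 0 0 1 (cp Φ a)) (cp Φ a)
  hk : ∀ M : ℕ, 1 ≤ M → ∀ ls : List ℕ, OkH 3 p ls →
    WTw a ((p : ℤ) ^ M) ls Φ 1 0 a = WTw a ((p : ℤ) ^ M) ls Φ 0 1 a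

/-- As the item of the same name in `Helper28/TH/StV.lean` (proof there), with `3` in place of `2`. -/
def ZLMap : Prop := ∀ (p a n : ℕ), p ≠ 0 → ∀ (R S : Type) (_ : AddCommGroup R) (_ : AddCommGroup S)
  (lam : R →+ S) (Φ : ℤ → ℤ → ℕ → R),
  (WSNH p a n Φ → WSNH p a n (fun x y i => lam (Φ x y i))) ∧
  (Function.Injective lam → WSNH p a n (fun x y i => lam (Φ x y i)) → WSNH p a n Φ) ∧
  ∀ Φ' : ℤ → ℤ → ℕ → R, (∀ i : ℕ, i ≤ 2 * a → EqC (cp Φ' i) (cp Φ i)) → WSNH p a n Φ →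
    WSNH p a n Φ'

/-- As the item of the same name in `Helper28/TH/StV.lean` (proof there), with `3` in place of `2`. -/
def ZLDen : Prop := StFar → ZLMap → ∀ (p a n : ℕ) (Φ : ℤ → ℤ → ℕ → ℚ), p.Prime → WSNH p a n Φ →
  ∃ (N : ℤ) (Ψ : ℤ → ℤ → ℕ → ℤ), N ≠ 0 ∧ WSNH p a n Ψ ∧
    ∀ i : ℕ, i ≤ 2 * a → EqC (fun x y => ((Ψ x y i : ℤ) : ℚ)) (N • cp Φ i)

/-- As the item of the same name in `Helper28/TH/StV.lean` (proof there), with `3` in place of `2`. -/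
def ZLQC : Prop := StFar → ZLMap → ZLDen → ∀ (p : ℕ) (_ : Fact p.Prime) (a n : ℕ),
  (∀ Φ : ℤ → ℤ → ℕ → ℤ_[p], WSNH p a n Φ → EqC (cp Φ a) 0) →
  ∀ Φ : ℤ → ℤ → ℕ → ℂ, WSNH p a n Φ → EqC (cp Φ a) 0

/-- As the item of the same name in `Helper28/TH/StV.lean` (proof there), with `3` in place of `2`. -/
def ZLW1 : Prop := ∀ (p : ℕ) (_ : Fact p.Prime) (a n : ℕ) (Φ : ℤ → ℤ → ℕ → ℤ_[p]), p ≠ 3 →
  WSNH p a n Φ → ∀ M : ℕ, 1 ≤ M → SymH p M (M + n) (redP M (cp Φ a))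

/-- As the item of the same name in `Helper28/TH/StV.lean` (proof there), with `3` in place of `2`. -/
def ZLW2 : Prop := ∀ (p : ℕ) (_ : Fact p.Prime) (a n : ℕ) (Φ : ℤ → ℤ → ℕ → ℤ_[p]),
  WSNH p a n Φ → (∀ h : ℤ, EqC (Nb a h (cp Φ a)) 0) ∧
    (∀ c : ℤ, 3 * (p : ℤ) ^ n ∣ c → EqC (Nc a c (cp Φ a)) 0)

/-- As the item of the same name in `Helper28/TH/StV.lean` (proof there), with `3` in place of `2`. -/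
def ZLW4 : Prop := ∀ (p : ℕ) (_ : Fact p.Prime) (a n : ℕ) (Φ : ℤ → ℤ → ℕ → ℤ_[p]),
  WSNH p a n Φ → ∀ M : ℕ, 1 ≤ M → ∀ ls : List ℕ, OkH 3 p ls →
    evw ((p : ℤ) ^ M) ls (redP M (cp Φ a)) = 0

/-- As the item of the same name in `Helper28/TH/StV.lean` (proof there), with `3` in place of `2`. -/
def ZLPol : Prop := ∀ (p : ℕ) (_ : Fact p.Prime) (κ : ℤ) (a n : ℕ) (G ψ : ℤ → ℤ → ℤ_[p]), p ≠ 3 →
  Homog G → Homog ψ → (∀ M : ℕ, 3 ≤ M → SymH p M (M + n - 1) (redP M ψ)) →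
  EqC (act p 0 0 1 ψ - ψ) (κ • G) → (∀ h : ℤ, EqC (Nb a h G) 0) →
  (∀ c : ℤ, 3 * (p : ℤ) ^ n ∣ c → EqC (Nc a c G) 0) →
  (∀ h : ℤ, EqC (Nb a h ψ) 0) ∧
    (∀ c : ℤ, 3 * (p : ℤ) ^ n ∣ c → EqC (Nc a c (act p 0 0 1 ψ)) 0)

/-- As the item of the same name in `Helper28/TH/StV.lean` (proof there), with `3` in place of `2`. -/
def MCGH : Prop := ∀ (p : ℕ) (_ : Fact p.Prime) (a ν : ℕ) (H : ℤ → ℤ → ℤ_[p]), 1 ≤ ν → Homog H →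
  (∀ M : ℕ, 3 ≤ M → SymH p M (M + ν) (redP M H)) → (∀ h : ℤ, EqC (Nb a h H) 0) →
  (∀ c : ℤ, 3 * (p : ℤ) ^ ν ∣ c → EqC (Nc a c H) 0) →
  ∀ v1 v2 w1 w2 : ℤ, (v1 ≠ 0 ∨ v2 ≠ 0) → (w1 ≠ 0 ∨ w2 ≠ 0) →
  ∃ P : ℕ → ℕ → ℚ_[p], ∀ (L : ℕ) (x y c : ℤ), 3 ≤ L →
    (p : ℤ) ^ L ∣ c * (1 - 3 * (p : ℤ) ^ ν * x * y) - y →
    ‖(1 - 3 * (p : ℚ_[p]) ^ ν * x * y) ^ a *
      ((H (w1 + x * w2) (3 * (p : ℤ) ^ ν * c * (w1 + x * w2) + w2) -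
        H (v1 + x * v2) (3 * (p : ℤ) ^ ν * c * (v1 + x * v2) + v2) : ℤ_[p]) : ℚ_[p]) -
      ∑ i ∈ Finset.range (a + 1), ∑ j ∈ Finset.range (a + 1), P i j * ((x : ℚ_[p]) ^ i * (y : ℚ_[p]) ^ j)‖ ≤
      ((p : ℝ) ^ L)⁻¹

/-- As the item of the same name in `Helper28/TH/StV.lean` (proof there), with `3` in place of `2`. -/
def ZMCG : Prop := SHGp → StPl1 → SHCC → MCGH

/-- As the item of the same name in `Helper28/TH/StV.lean` (proof there), with `3` in place of `2`. -/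
def MCH : Prop := ∀ (p : ℕ) (_ : Fact p.Prime) (a ν : ℕ) (H : ℤ → ℤ → ℤ_[p]), p ≠ 3 → 1 ≤ ν → Homog H →
  (∀ M : ℕ, 3 ≤ M → SymH p M (M + ν) (redP M H)) → (∀ h : ℤ, EqC (Nb a h H) 0) →
  (∀ c : ℤ, 3 * (p : ℤ) ^ ν ∣ c → EqC (Nc a c H) 0) →
  ∀ v1 v2 w1 w2 : ℤ, (v1 ≠ 0 ∨ v2 ≠ 0) → (w1 ≠ 0 ∨ w2 ≠ 0) →
  ∃ F : ℚ_[p] → ℚ_[p] → ℚ_[p] → ℚ_[p] → ℚ_[p], Rg a F ∧ ∀ α β γ δ : ℤ,
    HTy α β γ δ → (p : ℤ) ^ ν ∣ γ →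
    (((((α * δ - β * γ) ^ a : ℤ) : ℤ_[p]) *
      (H (α * w1 + β * w2) (γ * w1 + δ * w2) - H (α * v1 + β * v2) (γ * v1 + δ * v2)) : ℤ_[p]) : ℚ_[p]) =
      F α β γ δ

/-- As the item of the same name in `Helper28/TH/StV.lean` (proof there), with `3` in place of `2`. -/
def ZMC : Prop := MCGH → MCH

/-- As the item of the same name in `Helper28/TH/StV.lean` (proof there), with `3` in place of `2`. -/
def MSH : Prop := ∀ (p : ℕ) (_ : Fact p.Prime) (a : ℕ) (H : ℤ → ℤ → ℤ_[p]), p ≠ 3 → Homog H →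
  (∀ M : ℕ, 3 ≤ M → SymH p M (M + 1) (redP M H)) → (∀ h : ℤ, EqC (Nb a h H) 0) →
  (∀ c : ℤ, 3 ∣ c → EqC (Nc a c H) 0) →
  ∃ F : ℤ → ℤ → ℤ → ℤ → ℚ_[p] → ℚ_[p] → ℚ_[p] → ℚ_[p] → ℚ_[p],
    ∀ v1 v2 w1 w2 : ℤ, (v1 ≠ 0 ∨ v2 ≠ 0) → (w1 ≠ 0 ∨ w2 ≠ 0) → Rg a (F v1 v2 w1 w2) ∧
    ∀ α β γ δ : ℤ, HTy α β γ δ →
    (((((α * δ - β * γ) ^ a : ℤ) : ℤ_[p]) *
      (H (α * w1 + β * w2) (γ * w1 + δ * w2) - H (α * v1 + β * v2) (γ * v1 + δ * v2)) : ℤ_[p]) : ℚ_[p]) =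
      F v1 v2 w1 w2 α β γ δ

/-- As the item of the same name in `Helper28/TH/StV.lean` (proof there), with `3` in place of `2`. -/
def ZMS : Prop := MCH → StPl1 → RgT → RgU → MSH

/-- As the item of the same name in `Helper28/TH/StV.lean` (proof there), with `3` in place of `2`. -/
def UIWH : Prop := ∀ (p : ℕ) (_ : Fact p.Prime) (κ : ℤ) (n : ℕ) (G ψ : ℤ → ℤ → ℤ_[p]), p ≠ 3 →
  Homog ψ → (∀ M : ℕ, 3 ≤ M → SymH p M (M + n - 1) (redP M ψ)) →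
  EqC (act p 0 0 1 ψ - ψ) (κ • G) → EqC (act 0 (-1) (3 * (p : ℤ) ^ n) 0 G) (-G) →
  EqC (act 0 (-1) (3 * (p : ℤ) ^ n) 0 ψ) (act p 0 0 1 ψ)

/-- As the item of the same name in `Helper28/TH/StV.lean` (proof there), with `3` in place of `2`. -/
def ZUIW : Prop := UIpH → UIWH

/-- As the item of the same name in `Helper28/TH/StV.lean` (proof there), with `3` in place of `2`. -/
def ZF0 : Prop := MSH → RgT → RgU → UIpH → ∀ (p : ℕ) (_ : Fact p.Prime) (κ : ℤ) (a : ℕ)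
  (G ψ : ℤ → ℤ → ℤ_[p]), p ≠ 3 → κ ≠ 0 → Homog ψ → (∀ M : ℕ, 3 ≤ M → SymH p M (M - 1) (redP M ψ)) →
  EqC (act p 0 0 1 ψ - ψ) (κ • G) → (∀ c : ℤ, 3 ∣ c → EqC (Nc a c G) 0) →
  (∀ h : ℤ, EqC (Nb a h ψ) 0) → (∀ c : ℤ, 3 ∣ c → EqC (Nc a c (act p 0 0 1 ψ)) 0) →
  EqC (act 0 (-1) 3 0 ψ) (act p 0 0 1 ψ) → EqC G 0

/-- As the item of the same name in `Helper28/TH/StV.lean` (proof there), with `3` in place of `2`. -/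
def ZF1 : Prop := MSH → RgT → RgU → EG → ∀ (p : ℕ) (_ : Fact p.Prime) (κ : ℤ) (a : ℕ)
  (Φ : ℤ → ℤ → ℕ → ℤ_[p]) (ψ : ℤ → ℤ → ℤ_[p]), p ≠ 3 → κ ≠ 0 → Odd a →
  (∀ α β γ δ : ℤ, α * δ - β * γ = 1 → (3 : ℤ) ∣ γ → (p : ℤ) ∣ γ →
    EqC (act α β γ δ (cp Φ a)) (pr Φ ((Polynomial.C α * Polynomial.X + Polynomial.C β) ^ a *
      (Polynomial.C γ * Polynomial.X + Polynomial.C δ) ^ a))) →
  Homog ψ → (∀ M : ℕ, 3 ≤ M → SymH p M M (redP M ψ)) →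
  EqC (act p 0 0 1 ψ - ψ) (κ • cp Φ a) →
  (∀ h : ℤ, EqC (Nb a h ψ) 0) → (∀ c : ℤ, 3 * (p : ℤ) ∣ c → EqC (Nc a c (act p 0 0 1 ψ)) 0) →
  EqC (act 0 (-1) (3 * (p : ℤ)) 0 ψ) (act p 0 0 1 ψ) → EqC (cp Φ a) 0

/-- As the item of the same name in `Helper28/TH/StV.lean` (proof there), with `3` in place of `2`. -/
def ZLAll : Prop := ∀ (p a n : ℕ) (Φ : ℤ → ℤ → ℕ → ℂ), p.Prime → WSNH p a n Φ → EqC (cp Φ a) 0 →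
  ∀ i : ℕ, i ≤ 2 * a → EqC (cp Φ i) 0

/-- As the item of the same name in `Helper28/TH/StV.lean` (proof there), with `3` in place of `2`. -/
structure IDnH (p a n : ℕ) (I : ℤ → ℤ → ℕ → ℂ) : Prop where
  hom : ∀ i : ℕ, i ≤ 2 * a → Homog (cp I i)
  inf : ∀ i : ℕ, i ≤ 2 * a → I 1 0 i = 0
  eqv : ∀ α β γ δ : ℤ, α * δ - β * γ = 1 → 3 * (p : ℤ) ^ n ∣ γ → ∀ i : ℕ, i ≤ 2 * a →
    EqC (act α β γ δ (cp I i)) (pr I ((Polynomial.C α * Polynomial.X + Polynomial.C β) ^ i *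
      (Polynomial.C γ * Polynomial.X + Polynomial.C δ) ^ (2 * a - i)))
  eqq : ∀ α β γ δ : ℤ, α * δ - β * γ = 3 → (3 : ℤ) ∣ α → (3 : ℤ) ∣ δ → 3 * (p : ℤ) ^ n ∣ γ →
    ∀ i : ℕ, i ≤ 2 * a →
    EqC ((3 ^ a : ℤ) • act α β γ δ (cp I i)) (pr I ((Polynomial.C α * Polynomial.X + Polynomial.C β) ^ i *
      (Polynomial.C γ * Polynomial.X + Polynomial.C δ) ^ (2 * a - i)))
  fr : EqC (act 0 (-1) (3 * (p : ℤ) ^ n) 0 (cp I a)) (-(cp I a))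
  hk : ∃ lam : ℕ → ℂ, ∀ (l : ℕ) (m : ℤ), l.Prime → l ≠ p → l ≠ 3 → IsCoprime m (l : ℤ) →
    ∀ i : ℕ, i ≤ 2 * a → ∀ x y : ℤ, (x ≠ 0 ∨ y ≠ 0) →
    (∑ j ∈ Finset.range l, pr I ((Polynomial.C (l : ℤ) * Polynomial.X -
      Polynomial.C (m * j)) ^ i) (x + m * j * y) (l * y)) +
      ((l : ℤ) ^ (2 * a - i)) • I (l * x) y i = lam l * I x y i

/-- As the item of the same name in `Helper28/TH/StV.lean` (proof there), with `3` in place of `2`. -/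
def ZLTr : Prop := ∀ (p a n : ℕ) (I : ℤ → ℤ → ℕ → ℂ), p.Prime → p ≠ 3 → IDnH p a n I → I 0 1 a = 0 →
  WSNH p a n (PhN a I)

/-! ### Level `3p²` (the structure `WSymH p a 0`, coordinate `p z`) -/

/-- As the item of the same name in `Helper28/TH/StV.lean` (proof there), with `3` in place of `2`. -/
def ZM2B : Prop := ∀ (p : ℕ) (_ : Fact p.Prime) (a : ℕ) (Φ : ℤ → ℤ → ℕ → ℤ_[p]),
  WSymH p a 0 Φ → ∀ v1 v2 w1 w2 : ℤ, (v1 ≠ 0 ∨ v2 ≠ 0) → (w1 ≠ 0 ∨ w2 ≠ 0) →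
  ∀ α β γ δ : ℚ_[p],
  (∑ i ∈ Finset.range p, EGf a Φ (v1 + i * v2) v2 (w1 + i * w2) w2
    α (β - i * α) γ (δ - i * γ)) = 0 ∧
  (∑ i ∈ Finset.range p, EGf a Φ v1 (3 * i * v1 + v2) w1 (3 * i * w1 + w2)
    (α - 3 * i * β) β (γ - 3 * i * δ) δ) = 0

/-- As the item of the same name in `Helper28/TH/StV.lean` (proof there), with `3` in place of `2`. -/
def AVH : Prop := ∀ (p : ℕ) (_ : Fact p.Prime) (m m' : ℤ → ℤ → ℤ → ℤ → ℚ_[p]), p ≠ 3 →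
  (∀ k α β γ δ : ℤ, k ≠ 0 → m (k * α) (k * β) (k * γ) (k * δ) = m α β γ δ) →
  (∀ k α β γ δ : ℤ, k ≠ 0 → m' (k * α) (k * β) (k * γ) (k * δ) = m' α β γ δ) →
  (∀ x y z t α β γ δ : ℤ, HTy x y z t → HTy α β γ δ → (p : ℤ) ∣ y →
    m (x * α + y * γ) (x * β + y * δ) (z * α + t * γ) (z * β + t * δ) = m α β γ δ) →
  (∀ x y z t α β γ δ : ℤ, HTy x y z t → HTy α β γ δ → (p : ℤ) ∣ z →
    m' (x * α + y * γ) (x * β + y * δ) (z * α + t * γ) (z * β + t * δ) = m' α β γ δ) →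
  (∀ α β γ δ : ℤ, HTy α β γ δ →
    (p : ℚ_[p]) * m' α β γ δ = ∑ i ∈ Finset.range p, m (α + i * γ) (β + i * δ) γ δ) →
  (∀ α β γ δ : ℤ, HTy α β γ δ →
    (p : ℚ_[p]) * m α β γ δ = ∑ i ∈ Finset.range p, m' α β (3 * i * α + γ) (3 * i * β + δ)) →
  ∀ α β γ δ : ℤ, HTy α β γ δ → m α β γ δ = m' α β γ δ

/-- As the item of the same name in `Helper28/TH/StV.lean` (proof there), with `3` in place of `2`. -/
def ZAV : Prop := AVH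

/-- As the item of the same name in `Helper28/TH/StV.lean` (proof there), with `3` in place of `2`. -/
def ZF2 : Prop := MCH → RgT → RgU → EG → ZM2B → AVH → SHW2 → ∀ (p : ℕ) (_ : Fact p.Prime) (κ : ℤ)
  (a : ℕ) (Φ : ℤ → ℤ → ℕ → ℤ_[p]) (ψ : ℤ → ℤ → ℤ_[p]), p ≠ 3 → κ ≠ 0 → WSymH p a 0 Φ →
  Homog ψ → (∀ M : ℕ, 3 ≤ M → SymH p M (M - 1) (redP M ψ)) →
  EqC (act p 0 0 1 ψ - ψ) (κ • cp Φ a) →
  (∀ h : ℤ, EqC (Nb a h (ψ + κ • cp Φ a)) 0) → (∀ c : ℤ, 3 ∣ c → EqC (Nc a c ψ) 0) →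
  EqC (cp Φ a) 0

end Pool.Agent.Helper28.TK
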